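import Pool.Agent.Lib.MP_732f67_ag.KV.Cp
import Pool.Agent.Lib.MP_732f67_ag.T.DerC

/-!
# Project KM, part V2: charts over `ℂ` with a polarisation, transition functions
-/

set_option autoImplicit false
set_option linter.unusedSectionVars false
set_option linter.dupNamespace false

namespace Pool.Agent.Lib.MP_732f67_ag.KV

open Pool.Agent.KM
open Pool.Agent.Lib.MP_732f67_ag.KC (ev2 A2 ep jac bet AJ ceα)
open Pool.Agent.Lib.MP_732f67_ag.V (AR)
open Pool.Agent.Lib.MP_732f67_ag.T (Dual DZ dok_all r_det der_chart chA_eq_AR sup_eq_AR)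

/-- the data of charts of a smooth projective variety with normal crossings: homogeneous coordinates
`z`, the charts `z (σ a) ≠ 0` with the coordinates `x a`, the components `j : E` of the boundary
(`co a j = some l`: `x a l = 0` is the component `j`), and local equations `g a` of a divisor `G` with
`O(1) = m G + ∑ b j E j` -/
structure Dt (L : Type) [Field L] [Algebra ℂ L] (n : ℕ) (E : Type) where
  t : Fin n → L
  y0 : L
  D : Fin n → Derivation ℂ L L
  N : ℕ
  z : Fin N → L
  k : ℕ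
  σ : Fin k → Fin N
  x : Fin k → Fin n → L
  y : Fin k → L
  u : Fin k → L
  co : Fin k → E → Option (Fin n)
  g : Fin k → L
  m : ℕ
  b : E → ℤ

namespace Dt

variable {L : Type} [Field L] [Algebra ℂ L] {n : ℕ} {E : Type} (X : Dt L n E)

/-- the ring of the chart `a` -/
def A (a : Fin X.k) : Subalgebra ℂ L := chA X.z (X.σ a)

/-- the local equation of the component `j` on the chart `a` -/
def ε (a : Fin X.k) (j : E) : L := eps (X.x a) (X.co a j)

/-- `dx_1 ∧ ... ∧ dx_n = jac * dt_1 ∧ ... ∧ dt_n` -/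
noncomputable def jac (a : Fin X.k) : L := (Matrix.of fun i l => X.D i (X.x a l)).det

/-- the properties of the charts -/
structure Ok [Fintype E] : Prop where
  prim : Prim X.t X.y0
  Dt : ∀ i j, X.D i (X.t j) = if i = j then 1 else 0
  z_ne : ∀ j, X.z j ≠ 0
  /-- the charts cover -/
  cov : ∃ M : ℕ, ∀ j, X.z j ^ (M + 1) ∈
    Submodule.span ℂ (Set.range fun a => X.z (X.σ a)) * (Submodule.span ℂ (Set.range X.z)) ^ M
  ch : ∀ a, IsCh (X.A a) (X.x a) (X.y a) (X.u a)
  co_inj : ∀ a j j' l, X.co a j = some l → X.co a j' = some l → j = j'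
  ε_trans : ∀ a b j, X.ε a j / X.ε b j ∈ X.A a ⊔ X.A b
  g_ne : ∀ a, X.g a ≠ 0
  g_trans : ∀ a b, X.g a / X.g b ∈ X.A a ⊔ X.A b
  m_pos : 0 < X.m
  pol : ∀ a, Un (X.A a) (X.z (X.σ a) * X.g a ^ X.m * ∏ j, X.ε a j ^ X.b j)

end Dt

variable {L : Type} [Field L] [Algebra ℂ L] {n : ℕ} {E : Type} {X : Dt L n E}

theorem jac_eq (X : Dt L n E) (a : Fin X.k) : jac (DZ X.D) X.x a = X.jac a := by
  unfold KC.jac Dt.jac
  rw [← Matrix.det_transpose]
  rfl

theorem ep_eq (X : Dt L n E) (a : Fin X.k) (j : E) : ep X.x X.co a j = X.ε a j := by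
  unfold ep Dt.ε eps
  cases X.co a j <;> rfl

variable [Fintype E]

/-- the derivations are linearly independent -/
theorem D_ind (hX : X.Ok) : LinearIndependent L X.D := by
  rw [Fintype.linearIndependent_iff]
  intro c hc i
  have h1 := congrArg (fun D : Derivation ℂ L L => D (X.t i)) hc
  simp only [der_sum_apply, Derivation.smul_apply, hX.Dt, Derivation.zero_apply, smul_eq_mul] at h1
  rw [Finset.sum_eq_single i] at h1
  · simpa using h1
  · intro j _ hj
    rw [if_neg hj, mul_zero]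
  · intro h
    exact absurd (Finset.mem_univ _) h

/-- derivations on the intersection of two charts -/
theorem der_pair (hX : X.Ok) (a b : Fin X.k) {v : L} (hv : v ∈ AR ℂ X.z X.σ {a, b}) :
    ∃ g : Fin n → L, (∀ l, g l ∈ AR ℂ X.z X.σ {a, b}) ∧
      ∀ D : Derivation ℂ L L, D v = ∑ l, g l * D (X.x a l) := by
  have h := hX.ch a
  obtain ⟨D', hD'⟩ := exists_der h.tb
  have hle : X.A a ≤ AR ℂ X.z X.σ {a, b} := by
    show chA X.z (X.σ a) ≤ _
    refine Algebra.adjoin_mono ?_
    rintro _ ⟨i, rfl⟩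
    exact ⟨i, a, by simp, rfl⟩
  have hx1 : ∀ i l, D' i (X.x a l) ∈ X.A a := fun i l => by
    rw [hD']
    split_ifs
    · exact (X.A a).one_mem
    · exact (X.A a).zero_mem
  have hdA : ∀ l, ∀ w ∈ X.A a, D' l w ∈ X.A a := fun l => h.der (D' l) (hx1 l)
  have hza : ∀ j, X.z j / X.z (X.σ a) ∈ X.A a := fun j => Algebra.subset_adjoin ⟨j, rfl⟩
  have hgb : X.z (X.σ a) / X.z (X.σ b) ∈ AR ℂ X.z X.σ {a, b} :=
    Algebra.subset_adjoin ⟨X.σ a, b, by simp, rfl⟩
  have key : ∀ l, D' l v ∈ AR ℂ X.z X.σ {a, b} := by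
    intro l
    unfold AR at hv
    induction hv using Algebra.adjoin_induction with
    | mem v hv =>
      obtain ⟨j, c, hc, rfl⟩ := hv
      rw [Finset.mem_insert, Finset.mem_singleton] at hc
      rcases hc with rfl | rfl
      · exact hle (hdA l _ (hza j))
      · have hn := hX.z_ne (X.σ a)
        have hn' := hX.z_ne (X.σ c)
        have e : X.z j / X.z (X.σ c) = (X.z j / X.z (X.σ a)) / (X.z (X.σ c) / X.z (X.σ a)) := by
          field_simp
        rw [e, Derivation.leibniz_div]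
        have e2 : (X.z (X.σ c) / X.z (X.σ a))⁻¹ = X.z (X.σ a) / X.z (X.σ c) := by
          rw [inv_div]
        simp only [smul_eq_mul]
        rw [e2]
        refine mul_mem (pow_mem hgb 2) (sub_mem ?_ ?_)
        · exact hle (mul_mem (hza _) (hdA l _ (hza j)))
        · exact hle (mul_mem (hza _) (hdA l _ (hza _)))
    | algebraMap r => rw [Derivation.map_algebraMap]; exact zero_mem _
    | add x y _ _ hx hy => rw [map_add]; exact add_mem hx hy
    | mul x y hx0 hy0 hx hy =>
      rw [Derivation.leibniz]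
      exact add_mem (mul_mem hx0 hy) (mul_mem hy0 hx)
  refine ⟨fun l => D' l v, key, fun D => ?_⟩
  rw [der_frame h.tb hD' D v]
  exact Finset.sum_congr rfl fun l _ => mul_comm _ _

theorem x_ne (hX : X.Ok) (a : Fin X.k) (l : Fin n) : X.x a l ≠ 0 := by
  exact ((hX.ch a).tb.1).ne_zero l

theorem jacC_ne (hX : X.Ok) (a : Fin X.k) : X.jac a ≠ 0 := (hX.ch a).det_ne X.D (D_ind hX)

omit [Fintype E] in
theorem A_le_AR (X : Dt L n E) (a b : Fin X.k) : X.A a ≤ AR ℂ X.z X.σ {a, b} := by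
  show chA X.z (X.σ a) ≤ _
  refine Algebra.adjoin_mono ?_
  rintro _ ⟨i, rfl⟩
  exact ⟨i, a, by simp, rfl⟩

theorem x_mem (hX : X.Ok) (a : Fin X.k) (l : Fin n) : X.x a l ∈ X.A a := by
  rw [(hX.ch a).A_eq]
  exact Algebra.subset_adjoin (Or.inl ⟨l, rfl⟩)

theorem jac_ratio (hX : X.Ok) (a b : Fin X.k) : X.jac b / X.jac a ∈ AR ℂ X.z X.σ {a, b} := by
  have h1 : ∀ i, ∃ g : Fin n → L, (∀ l, g l ∈ AR ℂ X.z X.σ {a, b}) ∧
      ∀ D : Derivation ℂ L L, D (X.x b i) = ∑ l, g l * D (X.x a l) := by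
    intro i
    refine der_pair hX a b ?_
    rw [Finset.pair_comm]
    exact A_le_AR X b a (x_mem hX b i)
  choose g hg hgD using h1
  have h2 : X.jac b = (Matrix.of g).det * X.jac a := by
    unfold Dt.jac
    have h3 : (Matrix.of fun i l => X.D i (X.x b l)) =
        (Matrix.of fun i l => X.D i (X.x a l)) * (Matrix.of g).transpose := by
      ext i l
      rw [Matrix.mul_apply, Matrix.of_apply, hgD l (X.D i)]
      exact Finset.sum_congr rfl fun j _ => by
        rw [Matrix.transpose_apply, Matrix.of_apply, Matrix.of_apply, mul_comm]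
    rw [h3, Matrix.det_mul, Matrix.det_transpose, mul_comm]
  rw [h2, mul_div_cancel_right₀ _ (jacC_ne hX a)]
  rw [Matrix.det_apply]
  refine sum_mem fun s _ => ?_
  rw [Units.smul_def]
  refine zsmul_mem (prod_mem fun i _ => hg _ _) _

/-- the Jacobian determinants differ by units -/
theorem jac_trans (hX : X.Ok) (a b : Fin X.k) : Un (AR ℂ X.z X.σ {a, b}) (X.jac b / X.jac a) := by
  refine ⟨div_ne_zero (jacC_ne hX b) (jacC_ne hX a), jac_ratio hX a b, ?_⟩
  rw [inv_div, Finset.pair_comm]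
  exact jac_ratio hX b a

theorem ε_ne (hX : X.Ok) (a : Fin X.k) (j : E) : X.ε a j ≠ 0 := by
  unfold Dt.ε eps
  cases X.co a j with
  | none => exact one_ne_zero
  | some l => exact x_ne hX a l

/-- the local equations differ by units -/
theorem ε_un (hX : X.Ok) (a b : Fin X.k) (j : E) :
    Un (AR ℂ X.z X.σ {a, b}) (X.ε b j / X.ε a j) := by
  refine ⟨div_ne_zero (ε_ne hX b j) (ε_ne hX a j), ?_, ?_⟩
  · rw [← sup_eq_AR, sup_comm]
    exact hX.ε_trans b a j
  · rw [inv_div, ← sup_eq_AR]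
    exact hX.ε_trans a b j

/-- the local equations of `G` differ by units -/
theorem g_un (hX : X.Ok) (a b : Fin X.k) : Un (AR ℂ X.z X.σ {a, b}) (X.g b / X.g a) := by
  refine ⟨div_ne_zero (hX.g_ne b) (hX.g_ne a), ?_, ?_⟩
  · rw [← sup_eq_AR, sup_comm]
    exact hX.g_trans b a
  · rw [inv_div, ← sup_eq_AR]
    exact hX.g_trans a b

/-- the product of the determinant and the local equations -/
theorem bet_det_mul (hX : X.Ok) (a : Fin X.k) :
    (Matrix.of (bet (DZ X.D) X.x X.co a)).det * ∏ j, X.ε a j = X.jac a := by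
  classical
  have h1 : Matrix.of (bet (DZ X.D) X.x X.co a) =
      Matrix.of fun l k => (if ∃ j, X.co a j = some l then (X.x a l)⁻¹ else 1) *
        (Matrix.of (fun l k => DZ X.D k (X.x a l)) : Matrix (Fin n) (Fin n) L) l k := by
    ext l k
    rw [Matrix.of_apply, Matrix.of_apply, Matrix.of_apply, bet]
    split_ifs with hl
    · rw [mul_comm, ← div_eq_mul_inv]
    · rw [one_mul]
  have h2 : ∏ j, X.ε a j = ∏ l, if ∃ j, X.co a j = some l then X.x a l else 1 := by
    have h3 := Pool.Agent.Lib.MP_732f67_ag.KC.prod_ep (x := X.x) hX.co_inj a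
    refine (Finset.prod_congr rfl fun j _ => (ep_eq X a j).symm).trans (h3.trans ?_)
    exact Finset.prod_congr rfl fun l _ => by congr
  rw [h1, Matrix.det_mul_column, h2, mul_right_comm, ← Finset.prod_mul_distrib,
    Finset.prod_eq_one, one_mul]
  · exact jac_eq X a
  · intro l _
    split_ifs with hl
    · exact inv_mul_cancel₀ (x_ne hX a l)
    · exact one_mul 1

theorem bet_det (hX : X.Ok) (a : Fin X.k) : (Matrix.of (bet (DZ X.D) X.x X.co a)).det ≠ 0 := by
  intro h0
  have h1 := bet_det_mul hX a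
  rw [h0, zero_mul] at h1
  exact jacC_ne hX a h1.symm

/-- differentials in terms of the log forms -/
theorem der_bet (hX : X.Ok) (a b : Fin X.k) {v : L} (hv : v ∈ AR ℂ X.z X.σ {a, b}) :
    ∃ c : Fin n → L, (∀ j, c j ∈ AR ℂ X.z X.σ {a, b}) ∧
      (fun k => DZ X.D k v) = ∑ j, c j • bet (DZ X.D) X.x X.co a j := by
  classical
  obtain ⟨g, hg, hgD⟩ := der_pair hX a b hv
  refine ⟨fun l => if ∃ j, X.co a j = some l then g l * X.x a l else g l, fun l => ?_, ?_⟩
  · dsimp only
    split_ifs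
    · exact mul_mem (hg l) (A_le_AR X a b (x_mem hX a l))
    · exact hg l
  · funext k
    rw [Finset.sum_apply]
    show X.D k v = _
    rw [hgD (X.D k)]
    refine Finset.sum_congr rfl fun l _ => ?_
    rw [Pi.smul_apply, smul_eq_mul]
    unfold bet
    have hx := x_ne hX a l
    dsimp only
    by_cases hl : ∃ j, X.co a j = some l
    · rw [if_pos hl, if_pos hl]
      show g l * X.D k (X.x a l) = g l * X.x a l * (X.D k (X.x a l) / X.x a l)
      field_simp
    · rw [if_neg hl, if_neg hl]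
      rfl

/-- the transition matrices of the log forms -/
theorem bet_trans (hX : X.Ok) (a b : Fin X.k) (i : Fin n) :
    ∃ c : Fin n → L, (∀ j, c j ∈ AR ℂ X.z X.σ {a, b}) ∧
      bet (DZ X.D) X.x X.co b i = ∑ j, c j • bet (DZ X.D) X.x X.co a j := by
  classical
  by_cases hi : ∃ j, X.co b j = some i
  · obtain ⟨j, hj⟩ := hi
    have hb : bet (DZ X.D) X.x X.co b i = fun k => X.D k (X.x b i) / X.x b i := by
      unfold bet
      rw [if_pos ⟨j, hj⟩]
      rfl
    have hxb : X.ε b j = X.x b i := by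
      unfold Dt.ε eps
      rw [hj]
    obtain ⟨v0, v1, v2⟩ := ε_un hX a b j
    obtain ⟨c, hc, hcD⟩ := der_bet hX a b v1
    set v := X.ε b j / X.ε a j with hv
    have hεa := ε_ne hX a j
    have hεb := ε_ne hX b j
    have hvx : X.x b i = v * X.ε a j := by
      rw [hv, div_mul_cancel₀ _ hεa, hxb]
    have hD : ∀ k, X.D k (X.x b i) / X.x b i = v⁻¹ * X.D k v + X.D k (X.ε a j) / X.ε a j := by
      intro k
      rw [hvx, Derivation.leibniz, smul_eq_mul, smul_eq_mul]
      field_simp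
      ring
    -- the log form of `ε a j`
    have hl : ∃ e : Fin n → L, (∀ j, e j ∈ AR ℂ X.z X.σ {a, b}) ∧
        (fun k => X.D k (X.ε a j) / X.ε a j) = ∑ l, e l • bet (DZ X.D) X.x X.co a l := by
      cases hco : X.co a j with
      | none =>
        refine ⟨0, fun _ => zero_mem _, ?_⟩
        have h1 : X.ε a j = 1 := by
          unfold Dt.ε eps
          rw [hco]
        funext k
        rw [h1, Derivation.map_one_eq_zero, zero_div]
        simp
      | some l =>
        refine ⟨Pi.single l 1, fun m => ?_, ?_⟩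
        · rw [Pi.single_apply]
          split_ifs
          · exact one_mem _
          · exact zero_mem _
        · have h1 : X.ε a j = X.x a l := by
            unfold Dt.ε eps
            rw [hco]
          have h2 : ∑ m, (Pi.single l (1 : L) : Fin n → L) m • bet (DZ X.D) X.x X.co a m =
              bet (DZ X.D) X.x X.co a l := by
            rw [Finset.sum_eq_single l]
            · rw [Pi.single_eq_same, one_smul]
            · intro m _ hm
              rw [Pi.single_eq_of_ne hm, zero_smul]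
            · intro h
              exact absurd (Finset.mem_univ _) h
          rw [h2, h1]
          unfold bet
          rw [if_pos ⟨j, hco⟩]
          rfl
    obtain ⟨e, he, heD⟩ := hl
    refine ⟨fun l => v⁻¹ * c l + e l, fun l => add_mem (mul_mem v2 (hc l)) (he l), ?_⟩
    rw [hb]
    funext k
    rw [Finset.sum_apply, hD k]
    have h3 := congrFun hcD k
    have h4 := congrFun heD k
    rw [Finset.sum_apply] at h3 h4
    have h3' : X.D k v = ∑ m, (c m • bet (DZ X.D) X.x X.co a m) k := h3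
    rw [h3', h4, Finset.mul_sum, ← Finset.sum_add_distrib]
    refine Finset.sum_congr rfl fun m _ => ?_
    simp only [Pi.smul_apply, smul_eq_mul]
    ring
  · have hb : bet (DZ X.D) X.x X.co b i = fun k => DZ X.D k (X.x b i) := by
      unfold bet
      rw [if_neg hi]
    rw [hb]
    refine der_bet hX a b ?_
    rw [Finset.pair_comm]
    exact A_le_AR X b a (x_mem hX b i)

/-- the generator of the lattice without `O(l)`, over `ℂ` -/
noncomputable def kapC (X : Dt L n E) (a : Fin X.k) : L :=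
  (X.g a)⁻¹ * ∏ j, ep X.x X.co a j ^ (1 - ceα X.m X.b j)

/-- the generator of `K + ⌈N⌉`, over `ℂ` -/
noncomputable def nuC (X : Dt L n E) (a : Fin X.k) : L :=
  X.jac a * (X.g a)⁻¹ * ∏ j, X.ε a j ^ (-ceα X.m X.b j)

theorem kapC_ne (hX : X.Ok) (a : Fin X.k) : kapC X a ≠ 0 := by
  unfold kapC
  refine mul_ne_zero (inv_ne_zero (hX.g_ne a)) (Finset.prod_ne_zero_iff.2 fun j _ => ?_)
  rw [ep_eq]
  exact zpow_ne_zero _ (ε_ne hX a j)

theorem nuC_ne (hX : X.Ok) (a : Fin X.k) : nuC X a ≠ 0 := by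
  unfold nuC
  exact mul_ne_zero (mul_ne_zero (jacC_ne hX a) (inv_ne_zero (hX.g_ne a)))
    (Finset.prod_ne_zero_iff.2 fun j _ => zpow_ne_zero _ (ε_ne hX a j))

theorem prod_ratio (hX : X.Ok) (a b : Fin X.k) (e : E → ℤ) :
    (∏ j, ep X.x X.co b j ^ e j) / ∏ j, ep X.x X.co a j ^ e j ∈ AR ℂ X.z X.σ {a, b} := by
  rw [← Finset.prod_div_distrib]
  refine prod_mem fun j _ => ?_
  rw [ep_eq, ep_eq, ← div_zpow]
  exact T.Un.zpow (ε_un hX a b j) _

theorem kapC_trans (hX : X.Ok) (a b : Fin X.k) : kapC X b / kapC X a ∈ AR ℂ X.z X.σ {a, b} := by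
  unfold kapC
  rw [mul_div_mul_comm]
  refine mul_mem ?_ (prod_ratio hX a b _)
  have h := (g_un hX a b).2.2
  rw [inv_div] at h
  rwa [inv_div_inv]

theorem nuC_trans (hX : X.Ok) (a b : Fin X.k) : nuC X b / nuC X a ∈ AR ℂ X.z X.σ {a, b} := by
  unfold nuC
  rw [mul_div_mul_comm, mul_div_mul_comm]
  refine mul_mem (mul_mem (jac_ratio hX a b) ?_) ?_
  · have h := (g_un hX a b).2.2
    rw [inv_div] at h
    rwa [inv_div_inv]
  · have h := prod_ratio hX a b fun j => -ceα X.m X.b j
    simp only [ep_eq] at h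
    exact h

theorem ev_jac (hX : X.Ok) : Ev X.t X.y0 fun R => ∀ D' : Fin n → Derivation ℤ R.F R.F, Dual R D' →
    ∀ a, X.jac a ∈ R.Λ ∧ jac D' (fun a i => R.r (X.x a i)) a = R.r (X.jac a) := by
  have h : Ev X.t X.y0 fun R => ∀ a i, X.x a i ∈ R.Λ ∧ (∀ k, X.D k (X.x a i) ∈ R.Λ) ∧
      ∀ D' : Fin n → Derivation ℤ R.F R.F, Dual R D' → ∀ k,
        D' k (R.r (X.x a i)) = R.r (X.D k (X.x a i)) :=
    Ev.all fun a => Ev.all fun i => dok_all hX.prim hX.Dt (X.x a i)
  refine h.mono fun R hR D' hD' a => ?_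
  have h1 := r_det R (Matrix.of fun i l => X.D i (X.x a l)) fun i l => (hR a l).2.1 i
  refine ⟨h1.1, ?_⟩
  unfold jac
  rw [← Matrix.det_transpose]
  refine Eq.trans ?_ h1.2
  congr 1
  ext i l
  exact (hR a l).2.2 D' hD' i

theorem ev_bet (hX : X.Ok) : Ev X.t X.y0 fun R => ∀ D' : Fin n → Derivation ℤ R.F R.F, Dual R D' →
    ∀ a i k, bet D' (fun a i => R.r (X.x a i)) X.co a i k = R.r (bet (DZ X.D) X.x X.co a i k) := by
  have h : Ev X.t X.y0 fun R => ∀ a i, X.x a i ∈ R.Λ ∧ (∀ k, X.D k (X.x a i) ∈ R.Λ) ∧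
      ∀ D' : Fin n → Derivation ℤ R.F R.F, Dual R D' → ∀ k,
        D' k (R.r (X.x a i)) = R.r (X.D k (X.x a i)) :=
    Ev.all fun a => Ev.all fun i => dok_all hX.prim hX.Dt (X.x a i)
  have hne : ∀ a i, X.x a i ≠ 0 := fun a i => ((hX.ch a).tb.1).ne_zero i
  have h' : Ev X.t X.y0 fun R => ∀ a i, X.x a i ∈ R.Λ ∧ (X.x a i)⁻¹ ∈ R.Λ ∧ R.r (X.x a i) ≠ 0 :=
    Ev.all fun a => Ev.all fun i => ev_ne (hne a i)
  refine (h.and h').mono fun R hR D' hD' a i k => ?_
  unfold bet
  by_cases hi : ∃ j, X.co a j = some i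
  · rw [if_pos hi, if_pos hi]
    show D' k (R.r (X.x a i)) / R.r (X.x a i) = R.r (X.D k (X.x a i) / X.x a i)
    rw [div_eq_mul_inv (X.D k (X.x a i)), R.r_mul ((hR.1 a i).2.1 k) (hR.2 a i).2.1,
      R.r_inv (hne a i) (hR.2 a i).1 (hR.2 a i).2.1, (hR.1 a i).2.2 D' hD' k, div_eq_mul_inv]
  · rw [if_neg hi, if_neg hi]
    exact (hR.1 a i).2.2 D' hD' k

omit [Fintype E] in
theorem ev_ep (X : Dt L n E) : Ev X.t X.y0 fun R => ∀ a j,
    ep (fun a i => R.r (X.x a i)) X.co a j = R.r (ep X.x X.co a j) := by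
  refine Ev.of_forall fun R a j => ?_
  unfold ep
  cases X.co a j with
  | none => exact (R.r_one).symm
  | some l => rfl

end Pool.Agent.Lib.MP_732f67_ag.KV
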