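import Pool.Agent.Lib.MP_732f67_ag.KV.AtA
import Pool.Agent.Lib.MP_732f67_ag.T.VGeo
import Pool.Agent.Lib.MP_732f67_ag.T.PolCan
import Pool.Agent.Lib.MP_732f67_ag.KC.GeoE

/-!
# Project KM, part V2: the charts at the reductions
-/

set_option autoImplicit false
set_option linter.unusedSectionVars false

namespace Pool.Agent.Lib.MP_732f67_ag.KV

open Pool.Agent.KM
open Pool.Agent.Lib.MP_732f67_ag.KC (ev2 A2 ep jac bet AJ ceα kap KVan Kl)
open Pool.Agent.Lib.MP_732f67_ag.V (AR)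
open Pool.Agent.Lib.MP_732f67_ag.T (Dual DZ dok_all r_det der_chart chA_eq_AR sup_eq_AR geoR_lin
  geoR_pow lift_mv ev_isCh ev_ring_eq ev_AR ev_unit vgeo_hom vgeo_zpow r_zpow r_prod_zpow)

variable {L : Type} [Field L] [Algebra ℂ L] {n : ℕ} {E : Type} [Fintype E] {X : Dt L n E}

/-- the cover with homogeneous polynomials -/
theorem cov_poly (hX : X.Ok) : ∃ M : ℕ, ∀ j, ∃ s : Fin X.k → MvPolynomial (Fin X.N) ℂ,
    (∀ a, (s a).IsHomogeneous M) ∧
      X.z j ^ (M + 1) = ∑ a, X.z (X.σ a) * MvPolynomial.aeval X.z (s a) := by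
  obtain ⟨M, hM⟩ := hX.cov
  refine ⟨M, fun j => ?_⟩
  have key : ∀ v ∈ Submodule.span ℂ (Set.range fun a => X.z (X.σ a)) *
      (Submodule.span ℂ (Set.range X.z)) ^ M, ∃ s : Fin X.k → MvPolynomial (Fin X.N) ℂ,
        (∀ a, (s a).IsHomogeneous M) ∧
          v = ∑ a, X.z (X.σ a) * MvPolynomial.aeval X.z (s a) := by
    intro v hv
    refine Submodule.mul_induction_on hv ?_ ?_
    · intro a ha b hb
      obtain ⟨c, rfl⟩ := (Submodule.mem_span_range_iff_exists_fun ℂ).1 ha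
      obtain ⟨P, hP, rfl⟩ := geoR_pow X.z M hb
      refine ⟨fun i => MvPolynomial.C (c i) * P, fun i => ?_, ?_⟩
      · have h := (MvPolynomial.isHomogeneous_C (Fin X.N) (c i)).mul hP
        rwa [zero_add] at h
      · rw [Finset.sum_mul]
        refine Finset.sum_congr rfl fun i _ => ?_
        rw [map_mul, MvPolynomial.aeval_C, Algebra.smul_def]
        ring
    · rintro a b ⟨s, hs, rfl⟩ ⟨s', hs', rfl⟩
      refine ⟨fun i => s i + s' i, fun i => (hs i).add (hs' i), ?_⟩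
      rw [← Finset.sum_add_distrib]
      refine Finset.sum_congr rfl fun i _ => ?_
      rw [map_add, mul_add]
  exact key _ (hM j)

/-- the cover at the reductions -/
theorem ev_cov (hX : X.Ok) : Ev X.t X.y0 fun R => ∃ M : ℕ, ∀ j,
    ∃ s : Fin X.k → MvPolynomial (Fin X.N) ℤ, (∀ a, (s a).IsHomogeneous M) ∧
      R.r (X.z j) ^ (M + 1) =
        ∑ a, R.r (X.z (X.σ a)) * MvPolynomial.aeval (fun i => R.r (X.z i)) (s a) := by
  obtain ⟨M, hM⟩ := cov_poly hX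
  choose s hs hs' using hM
  refine ((Ev.all fun i : Fin X.N => ev_mem (X.z i)).and (Ev.all fun j : Fin X.N =>
    Ev.all fun a : Fin X.k => lift_mv (s j a))).mono fun R hR => ⟨M, fun j => ?_⟩
  obtain ⟨hz, hP⟩ := hR
  choose P hP hP' using hP
  refine ⟨P j, fun a d hd => hs j a fun h => hd (hP j a d h), ?_⟩
  have h1 : ∀ a, MvPolynomial.aeval X.z (s j a) ∈ R.Λ := fun a => (hP' j a X.z hz).1
  rw [← R.r_pow (hz j), hs' j, R.r_sum _ _ fun a _ => R.Λ.mul_mem (hz _) (h1 a)]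
  refine Finset.sum_congr rfl fun a _ => ?_
  rw [R.r_mul (hz _) (h1 a), (hP' j a X.z hz).2.2]

theorem geoR_eps (X : Dt L n E) (R : Red L X.t X.y0) (a : Fin X.k) (j : E) :
    ep (fun a i => R.r2 (X.x a i)) X.co a j = R.r2 (X.ε a j) := by
  unfold ep Dt.ε
  cases X.co a j with
  | none => exact R.r2_one.symm
  | some l => rfl

/-- **the charts modulo `p ^ 2`** -/
theorem ev_geo (hX : X.Ok) : Ev X.t X.y0 fun R =>
    ∃ f : Fin X.k → Polynomial (MvPolynomial (Fin n) ℤ),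
      KC.Geo R.p R.π (fun j => R.r2 (X.z j)) (fun j => R.r2 (X.z j)⁻¹) X.σ
        (fun a i => R.r2 (X.x a i)) (fun a => R.r2 (X.y a)) (fun a => R.r2 (X.u a)) f X.co := by
  have hx0 : ∀ a i, X.x a i ≠ 0 := fun a i => (hX.ch a).tb.1.ne_zero i
  have hε0 : ∀ a j, X.ε a j ≠ 0 := by
    intro a j
    unfold Dt.ε
    cases X.co a j with
    | none => exact one_ne_zero
    | some l => exact hx0 a l
  have hv : ∀ a b j, X.ε a j / X.ε b j ∈ AR ℂ X.z X.σ {a, b} := by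
    intro a b j
    rw [← sup_eq_AR]
    exact hX.ε_trans a b j
  have hw : ∀ a b j, X.ε b j / X.ε a j ∈ AR ℂ X.z X.σ {a, b} := by
    intro a b j
    rw [Finset.pair_comm]
    exact hv b a j
  have e1 := Ev.all (t := X.t) (y := X.y0) fun j => ev_ne (hX.z_ne j)
  have e2 := Ev.all (t := X.t) (y := X.y0) fun a => Ev.all fun i => ev_ne (hx0 a i)
  have e3 := Ev.all (t := X.t) (y := X.y0) fun a => ev_isCh hX.prim.basis (hX.ch a)
  have e4 := Ev.all (t := X.t) (y := X.y0) fun a => ev_ring_eq hX.z_ne X.σ a (hX.ch a)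
  have e5 := Ev.all (t := X.t) (y := X.y0) fun a => Ev.all fun b => Ev.all fun j =>
    ev_AR hX.z_ne X.σ {a, b} (hv a b j)
  have e6 := Ev.all (t := X.t) (y := X.y0) fun a => Ev.all fun b => Ev.all fun j =>
    ev_AR hX.z_ne X.σ {a, b} (hw a b j)
  refine ((e1.and (e2.and e3)).and ((e4.and (ev_cov hX)).and (e5.and e6))).mono fun R hR => ?_
  obtain ⟨⟨h1, h2, h3⟩, ⟨h4, h7⟩, h5, h6⟩ := hR
  choose h31 h32 h33 f hf using h3
  refine ⟨f, ⟨⟨R.surj, R.ker, R.flat⟩, fun j => R.r2_inv (hX.z_ne j) (h1 j).1 (h1 j).2.1,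
    fun a => (hf a).1, fun a => (hf a).2.2.1, h4, fun a => (hf a).2.2.2.1,
    fun a => (hf a).2.2.2.2.1, fun a => (hf a).2.2.2.2.2.1, fun a => (hf a).2.2.2.2.2.2,
    fun a i => (h2 a i).2.2, hX.co_inj, fun a b j => ?_, h7⟩⟩
  have hεm : ∀ a j, X.ε a j ∈ R.Λ := by
    intro a j
    unfold Dt.ε
    cases X.co a j with
    | none => exact R.Λ.one_mem
    | some l => exact (h2 a l).1
  refine ⟨R.r2 (X.ε a j / X.ε b j), (h5 a b j).2.1, R.r2 (X.ε b j / X.ε a j), (h6 a b j).2.1,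
    ?_, ?_⟩
  · rw [← R.r2_mul (h5 a b j).1 (h6 a b j).1, div_mul_div_cancel₀ (hε0 b j),
      div_self (hε0 a j), R.r2_one]
  · rw [geoR_eps, geoR_eps, ← R.r2_mul (h5 a b j).1 (hεm b j), div_mul_cancel₀ _ (hε0 b j)]

/-- the hypotheses of part V -/
theorem vgeo (hX : X.Ok) : V.Geo n X.z X.σ := by
  refine ⟨hX.z_ne, fun j => ?_, fun a => ?_⟩
  · obtain ⟨M, hM⟩ := cov_poly hX
    obtain ⟨s, hs, hz⟩ := hM j
    exact ⟨M, s, fun a => vgeo_hom (hs a), hz⟩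
  · have h := hX.ch a
    obtain ⟨f, hf, hirr, h0, -, -⟩ := h.pol
    refine ⟨X.x a, X.y a, X.u a, f, h.tb, hf, hirr, h0, h.u_ne, ?_, ?_⟩
    · have h1 := h.u_inv
      rwa [Set.union_singleton] at h1
    · have h1 := h.A_eq
      have h2 : Set.range (X.x a) ∪ {X.y a, X.u a} =
          insert (X.u a) (insert (X.y a) (Set.range (X.x a))) := by
        ext v
        simp only [Set.mem_union, Set.mem_insert_iff, Set.mem_singleton_iff]
        tauto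
      rw [h2] at h1
      exact h1

/-- products of integer powers of the local equations -/
theorem vgeo_prod (hX : X.Ok) (e : E → ℤ) : Ev X.t X.y0 fun R => ∀ a,
    ∏ j, ep X.x X.co a j ^ e j ∈ R.Λ ∧
      R.r (∏ j, ep X.x X.co a j ^ e j) = ∏ j, ep (fun a i => R.r (X.x a i)) X.co a j ^ e j := by
  have h1 : Ev X.t X.y0 fun R => ∀ a j, ep X.x X.co a j ∈ R.Λ ∧ (ep X.x X.co a j)⁻¹ ∈ R.Λ ∧
      R.r (ep X.x X.co a j) ≠ 0 := Ev.all fun a => Ev.all fun j => ev_ne (by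
    rw [ep_eq]
    exact ε_ne hX a j)
  refine (h1.and (ev_ep X)).mono fun R hR a => ?_
  obtain ⟨hR, hE⟩ := hR
  have h2 : ∀ j, ep X.x X.co a j ^ e j ∈ R.Λ ∧
      R.r (ep X.x X.co a j ^ e j) = R.r (ep X.x X.co a j) ^ e j := fun j =>
    vgeo_zpow R (by rw [ep_eq]; exact ε_ne hX a j) (hR a j).1 (hR a j).2.1 (e j)
  refine ⟨R.Λ.prod_mem fun j _ => (h2 j).1, ?_⟩
  rw [R.r_prod _ _ fun j _ => (h2 j).1]
  exact Finset.prod_congr rfl fun j _ => by rw [(h2 j).2, hE a j]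

/-- the vanishing -/
theorem ev_van (hX : X.Ok) : ∃ l₀ : ℕ, Ev X.t X.y0 fun R => ∀ l, l₀ ≤ l →
    ∀ D' : Fin n → Derivation ℤ R.F R.F, Dual R D' →
      KVan (Kl (AJ (fun j => R.r (X.z j)) X.σ) (bet D' (fun a i => R.r (X.x a i)) X.co)
        (kap X.m l (fun j => R.r (X.z j)) X.σ (fun a i => R.r (X.x a i)) X.co
          (fun a => R.r (X.g a)) X.b)) := by
  obtain ⟨l₀, hl₀⟩ := V.ev_KVan (y := X.y0) hX.prim.basis (vgeo hX)
    (β := bet (DZ X.D) X.x X.co) (κ := kapC X) (bet_det hX) (kapC_ne hX) (bet_trans hX)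
    (kapC_trans hX)
  refine ⟨l₀, ?_⟩
  have h1 : Ev X.t X.y0 fun R => ∀ a, X.g a ∈ R.Λ ∧ (X.g a)⁻¹ ∈ R.Λ ∧ R.r (X.g a) ≠ 0 :=
    Ev.all fun a => ev_ne (hX.g_ne a)
  refine ((hl₀.and (ev_bet hX)).and
    (h1.and (vgeo_prod hX fun j => 1 - ceα X.m X.b j))).mono fun R hR l hl D' hD' => ?_
  obtain ⟨⟨hK, hB⟩, hJne, hP⟩ := hR
  have e1 : bet D' (fun a i => R.r (X.x a i)) X.co =
      fun a i k => R.r (bet (DZ X.D) X.x X.co a i k) := by
    funext a i k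
    exact hB D' hD' a i k
  have e2 : kap X.m l (fun j => R.r (X.z j)) X.σ (fun a i => R.r (X.x a i)) X.co
      (fun a => R.r (X.g a)) X.b = fun a => R.r (X.z (X.σ a)) ^ l * R.r (kapC X a) := by
    funext a
    unfold kap kapC
    rw [R.r_mul (hJne a).2.1 (hP a).1,
      R.r_inv (hX.g_ne a) (hJne a).1 (hJne a).2.1, (hP a).2, mul_assoc]
  rw [e1, e2]
  exact hK l hl

/-- everything in `Λ` -/
theorem ev_base (hX : X.Ok) : Ev X.t X.y0 fun R =>
    (∀ j, X.z j ∈ R.Λ ∧ (X.z j)⁻¹ ∈ R.Λ ∧ R.r (X.z j) ≠ 0) ∧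
    (∀ a, X.g a ∈ R.Λ ∧ (X.g a)⁻¹ ∈ R.Λ ∧ R.r (X.g a) ≠ 0) ∧
    (∀ a j, X.ε a j ∈ R.Λ ∧ (X.ε a j)⁻¹ ∈ R.Λ ∧ R.r (X.ε a j) ≠ 0) :=
  (Ev.all fun j => ev_ne (hX.z_ne j)).and <| (Ev.all fun a => ev_ne (hX.g_ne a)).and <|
    (Ev.all fun a => Ev.all fun j => ev_ne (ε_ne hX a j))

/-- the polarisation at the reductions -/
theorem ev_pol (hX : X.Ok) : Ev X.t X.y0 fun R =>
    ∃ un : Fin X.k → R.F, KC.Pol X.m (fun j => R.r (X.z j)) X.σ
      (fun a i => R.r (X.x a i)) X.co (fun a => R.r (X.g a)) un X.b := by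
  have h1 : Ev X.t X.y0 fun R => ∀ a, _root_.KM.UnitOf (AJ (fun j => R.r (X.z j)) X.σ {a})
      (R.r (X.z (X.σ a) * X.g a ^ X.m * ∏ j, X.ε a j ^ X.b j)) :=
    Ev.all fun a => (ev_unit hX.z_ne X.σ {a} (by
      rw [← chA_eq_AR]
      exact hX.pol a)).mono fun R hR => hR.2.2.2.2.2
  have h2 : Ev X.t X.y0 fun R => ∀ a a', _root_.KM.UnitOf (AJ (fun j => R.r (X.z j)) X.σ {a, a'})
      (R.r (X.g a / X.g a')) :=
    Ev.all fun a => Ev.all fun a' => (ev_unit hX.z_ne X.σ {a, a'} (by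
      rw [Finset.pair_comm]
      exact g_un hX a' a)).mono fun R hR => hR.2.2.2.2.2
  refine (h1.and (h2.and ((ev_base hX).and (ev_ep X)))).mono fun R hR => ?_
  obtain ⟨h1, h2, ⟨hz, hj, hε⟩, hep⟩ := hR
  refine ⟨fun a => R.r (X.z (X.σ a) * X.g a ^ X.m * ∏ j, X.ε a j ^ X.b j), ?_, h1, ?_, ?_,
    ?_⟩
  · exact hX.m_pos
  · intro a
    exact (hj a).2.2
  · intro a a'
    refine ⟨_, h2 a a', ?_⟩
    rw [div_eq_mul_inv, R.r_mul (hj a).1 (hj a').2.1,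
      R.r_inv (hX.g_ne a') (hj a').1 (hj a').2.1, mul_assoc, inv_mul_cancel₀ (hj a').2.2,
      mul_one]
  · intro a
    have h3 := r_prod_zpow R Finset.univ (fun j => X.ε a j) (fun j _ => ε_ne hX a j)
      (fun j _ => (hε a j).1) (fun j _ => (hε a j).2.1) X.b
    rw [R.r_mul (R.Λ.mul_mem (hz _).1 (R.Λ.pow_mem (hj a).1 _)) h3.1,
      R.r_mul (hz _).1 (R.Λ.pow_mem (hj a).1 _), R.r_pow (hj a).1, h3.2]
    congr 1
    exact Finset.prod_congr rfl fun j _ => by rw [hep, ep_eq]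

end Pool.Agent.Lib.MP_732f67_ag.KV
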