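import Pool.Agent.Lib.MP_732f67_ag.KV.BcA
import Pool.Agent.Lib.MP_732f67_ag.V.Lift
import Pool.Agent.Lib.MP_732f67_ag.T.Adj

/-!
# Project KM, part V2: base change: vanishing modulo `p` implies vanishing over `ℂ`
-/

set_option autoImplicit false
set_option linter.unusedSectionVars false

namespace Pool.Agent.Lib.MP_732f67_ag.KV

open Pool.Agent.Lib.MP_732f67_ag.KC (AJ AJ_mono div_mem_AJ cd cd_cd cd_map cd_congr KVan)
open Pool.Agent.Lib.MP_732f67_ag.V (AR AR_mono AR_gen LJ)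
open Pool.Agent.Lib.MP_0b721b_ag (sgn)
open Pool.Agent.KM

section lin

variable {Λ : Type} [LinearOrder Λ] [Fintype Λ] {s : Finset Λ → ℕ}

theorem sum_M {k : Type*} [Ring k] (mm : ∀ J' J : Finset Λ, Fin (s J') → Fin (s J) → k)
    (η : (Σ J : Finset Λ, Fin (s J)) → k) (J : Finset Λ) (κ : Fin (s J)) :
    ∑ x : (Σ J : Finset Λ, Fin (s J)), η x *
      ∑ a ∈ J, (if J.erase a = x.1 then (sgn a J : k) * mm x.1 J x.2 κ else 0) =
    ∑ a ∈ J, (sgn a J : k) * ∑ k', η ⟨J.erase a, k'⟩ * mm (J.erase a) J k' κ := by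
  classical
  simp only [Finset.mul_sum]
  rw [Finset.sum_comm]
  refine Finset.sum_congr rfl fun a _ => ?_
  rw [Fintype.sum_sigma]
  rw [Finset.sum_eq_single (J.erase a)]
  · refine Finset.sum_congr rfl fun k' _ => ?_
    rw [if_pos rfl]
    have h1 : η ⟨J.erase a, k'⟩ * (sgn a J : k) = (sgn a J : k) * η ⟨J.erase a, k'⟩ :=
      ((Int.cast_commute (sgn a J) (η ⟨J.erase a, k'⟩)).eq).symm
    rw [← mul_assoc, h1, mul_assoc]
  · intro J' _ hJ'
    refine Finset.sum_eq_zero fun k' _ => ?_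
    rw [if_neg (fun h => hJ' h.symm), mul_zero]
  · intro h
    exact absurd (Finset.mem_univ _) h

theorem cd_expand {k E : Type*} [Field k] [AddCommGroup E] [Module k E]
    (w : ∀ J : Finset Λ, Fin (s J) → E)
    (mm : ∀ J' J : Finset Λ, Fin (s J') → Fin (s J) → k)
    (hm : ∀ J' J k', J' ⊆ J → w J' k' = ∑ κ, mm J' J k' κ • w J κ)
    (η : (Σ J : Finset Λ, Fin (s J)) → k) (J : Finset Λ) :
    cd (fun J' => ∑ k', η ⟨J', k'⟩ • w J' k') J =
      ∑ κ, (∑ a ∈ J, (sgn a J : k) * ∑ k', η ⟨J.erase a, k'⟩ * mm (J.erase a) J k' κ) • w J κ := by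
  have h1 : ∀ a ∈ J, (sgn a J) • ∑ k', η ⟨J.erase a, k'⟩ • w (J.erase a) k' =
      ∑ κ, ((sgn a J : k) * ∑ k', η ⟨J.erase a, k'⟩ * mm (J.erase a) J k' κ) • w J κ := by
    intro a _
    have h2 : ∑ k', η ⟨J.erase a, k'⟩ • w (J.erase a) k' =
        ∑ κ, (∑ k', η ⟨J.erase a, k'⟩ * mm (J.erase a) J k' κ) • w J κ := by
      simp only [Finset.sum_smul]
      rw [Finset.sum_comm]
      refine Finset.sum_congr rfl fun k' _ => ?_
      rw [hm _ J k' (Finset.erase_subset a J), Finset.smul_sum]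
      exact Finset.sum_congr rfl fun κ _ => smul_smul _ _ _
    rw [h2, Finset.smul_sum]
    refine Finset.sum_congr rfl fun κ _ => ?_
    rw [mul_smul, Int.cast_smul_eq_zsmul]
  unfold cd
  rw [Finset.sum_congr rfl h1, Finset.sum_comm]
  refine Finset.sum_congr rfl fun κ _ => ?_
  rw [Finset.sum_smul]

end lin

variable {L : Type} [Field L] [Algebra ℂ L] {n : ℕ} {t : Fin n → L} {y : L} {N : ℕ} {Λ : Type}
  [LinearOrder Λ] [Fintype Λ]

/-- the lattices over `ℂ` -/
def shC (z : Fin N → L) (σ : Λ → Fin N) (φ : Λ → L) (J : Finset Λ) : AddSubgroup L where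
  carrier := {f | ∀ a ∈ J, f / φ a ∈ AR ℂ z σ J}
  zero_mem' := fun a _ => by
    rw [zero_div]
    exact Subalgebra.zero_mem _
  add_mem' := by
    intro f g hf hg a ha
    rw [add_div]
    exact Subalgebra.add_mem _ (hf a ha) (hg a ha)
  neg_mem' := by
    intro f hf a ha
    rw [neg_div]
    exact Subalgebra.neg_mem _ (hf a ha)

theorem r_cd (R : Red L t y) {c : Finset Λ → L} (hc : ∀ J, c J ∈ R.Λ) (J : Finset Λ) :
    cd (fun J => R.r (c J)) J = R.r (cd c J) := by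
  have h1 := cd_map R.ρ.toAddMonoidHom (fun J => (⟨c J, hc J⟩ : R.Λ)) J
  have h2 := cd_map R.Λ.subtype.toAddMonoidHom (fun J => (⟨c J, hc J⟩ : R.Λ)) J
  have h3 : (fun J => R.r (c J)) = fun J => R.ρ.toAddMonoidHom (⟨c J, hc J⟩ : R.Λ) := by
    funext J
    exact R.r_of (hc J)
  have h4 : cd c J = ((cd (fun J => (⟨c J, hc J⟩ : R.Λ)) J : R.Λ) : L) := h2
  rw [h3, h1, h4, R.r_coe]
  rfl

/-- reductions of combinations -/
theorem r_comb (R : Red L t y) {B : Subring ℂ} (hB : B ≤ R.C) {ι : Type*} [Fintype ι] (c : ι → B)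
    (w : ι → L) (hw : ∀ i, w i ∈ R.Λ) :
    R.r (∑ i, (c i : ℂ) • w i) = ∑ i, R.ψB B hB (c i) • R.r (w i) := by
  have h1 : ∀ i, algebraMap ℂ L (c i : ℂ) ∈ R.Λ := fun i => hB (c i).2
  rw [R.r_sum _ _ fun i _ => by
    rw [Algebra.smul_def]
    exact R.Λ.mul_mem (h1 i) (hw i)]
  refine Finset.sum_congr rfl fun i _ => ?_
  rw [Algebra.smul_def, R.r_mul (h1 i) (hw i), Algebra.smul_def]
  congr 1
  exact R.ψ_spec ⟨(c i : ℂ), hB (c i).2⟩

/-- **base change**: the vanishing modulo `p` implies the vanishing over `ℂ` -/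
theorem bc (hp : Prim t y) {z : Fin N → L} {σ : Λ → Fin N} (hg : V.Geo n z σ) {φ : Λ → L}
    (hφ : ∀ a, φ a ≠ 0) (hφ' : ∀ a b, φ b / φ a ∈ AR ℂ z σ {a, b}) {I : ℕ} (hI : 1 ≤ I)
    (h : Ev t y fun R => Van1 (sh (AJ (fun j => R.r (z j)) σ) fun a => R.r (φ a)) I) :
    Van1 (shC z σ φ) I := by
  classical
  intro c hc hcd
  rcases isEmpty_or_nonempty Λ with hΛ | hΛ
  · refine ⟨fun _ => 0, fun J _ => AddSubgroup.zero_mem _, fun J hJ => ?_⟩
    have h1 : J = ∅ := Finset.eq_empty_of_isEmpty J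
    rw [h1, Finset.card_empty] at hJ
    omega
  obtain ⟨a₀⟩ := id hΛ
  have ht := hp.basis
  have hz := hg.ne
  obtain ⟨l₀, hl₀⟩ := ev_row (y := y) ht hg hφ hφ'
  -- the exponent
  have hex : ∀ (J : Finset Λ) (a : Λ), ∃ k₀ : ℕ, J.card = I + 1 → ∀ k, k₀ ≤ k →
      (∏ b ∈ J, z (σ b) / z (σ a)) ^ k * (c J / φ a) ∈ AR ℂ z σ {a} := by
    intro J a
    by_cases hJ : J.card = I + 1
    · have hne : J.Nonempty := by rw [← Finset.card_pos]; omega
      obtain ⟨a', ha'⟩ := hne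
      have h1 : c J / φ a ∈ AR ℂ z σ (insert a J) := by
        have h2 : c J / φ a = c J / φ a' * (φ a' / φ a) := by
          rw [div_mul_div_cancel₀ (hφ a')]
        rw [h2]
        refine Subalgebra.mul_mem _ (AR_mono (Finset.subset_insert a J) (hc J hJ a' ha'))
          (AR_mono ?_ (hφ' a a'))
        intro d hd
        rw [Finset.mem_insert, Finset.mem_singleton] at hd
        rcases hd with rfl | rfl
        · exact Finset.mem_insert_self _ _
        · exact Finset.mem_insert_of_mem ha'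
      obtain ⟨k₀, hk⟩ := AR_clearJ hz h1
      exact ⟨k₀, fun _ => hk⟩
    · exact ⟨0, fun h => absurd h hJ⟩
  choose k₀ hk₀ using hex
  obtain ⟨e₁, he₁⟩ := Finite.exists_le fun q : Finset Λ × Λ => k₀ q.1 q.2
  obtain ⟨e, hel, hee⟩ : ∃ e, l₀ ≤ e ∧ e₁ ≤ e := ⟨max l₀ e₁, le_max_left _ _, le_max_right _ _⟩
  have hcs : ∀ (J : Finset Λ) (a : Λ), J.card = I + 1 → c J / tw z σ φ e J a ∈ AR ℂ z σ {a} := by
    intro J a hJ
    have h1 := hk₀ J a hJ e ((he₁ (J, a)).trans hee)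
    have h2 : c J / tw z σ φ e J a = (∏ b ∈ J, z (σ b) / z (σ a)) ^ e * (c J / φ a) := by
      have h3 : (∏ b ∈ J, z (σ b) / z (σ a)) = (∏ b ∈ J, z (σ a) / z (σ b))⁻¹ := by
        rw [← Finset.prod_inv_distrib]
        exact Finset.prod_congr rfl fun b _ => (inv_div _ _).symm
      have h4 : ∏ b ∈ J, z (σ a) / z (σ b) ≠ 0 :=
        Finset.prod_ne_zero_iff.2 fun _ _ => div_ne_zero (hz _) (hz _)
      have h5 := hφ a
      rw [h3, inv_pow]
      unfold tw
      generalize ∏ b ∈ J, z (σ a) / z (σ b) = P at h4 ⊢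
      field_simp
    rw [h2]
    exact h1
  have htwt : ∀ (J : Finset Λ) (a b : Λ),
      tw z σ φ e J b / tw z σ φ e J a ∈ AR ℂ z σ {a, b} := by
    intro J a b
    have h1 : φ b = φ a * (φ b / φ a) := by
      rw [mul_div_cancel₀ _ (hφ a)]
    rw [tw_chart hz e J h1, mul_div_cancel_left₀ _ (tw_ne hz hφ e J a)]
    refine Subalgebra.mul_mem _ (hφ' a b) (Subalgebra.pow_mem _ (AR_gen ?_ _) _)
    exact Finset.mem_insert_self _ _
  choose s w hwi hws hwspan hwEv using fun J : Finset Λ =>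
    V.ev_lift (y := y) ht hg (tw_ne hz hφ e J) (htwt J) a₀
  -- the coefficients of the inclusions
  have hmm : ∀ (J' J : Finset Λ) (k' : Fin (s J')), ∃ m : Fin (s J) → ℂ,
      J' ⊆ J → w J' k' = ∑ κ, m κ • w J κ := by
    intro J' J k'
    by_cases hJ : J' ⊆ J
    · have h1 := hwspan J (w J' k') fun a => by
        have h2 : w J' k' / tw z σ φ e J a = w J' k' / tw z σ φ e J' a *
            (∏ b ∈ J \ J', z (σ b) / z (σ a)) ^ e := by
          rw [tw_sub hz e hJ a]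
          have h3 := tw_ne (σ := σ) hz hφ e J a
          have h4 : (∏ b ∈ J \ J', z (σ b) / z (σ a)) ≠ 0 :=
            Finset.prod_ne_zero_iff.2 fun _ _ => div_ne_zero (hz _) (hz _)
          field_simp
        rw [h2]
        exact Subalgebra.mul_mem _ (hws J' k' a) (Subalgebra.pow_mem _ (Subalgebra.prod_mem _
          fun b _ => AR_gen (Finset.mem_singleton_self a) _) _)
      obtain ⟨m, hm⟩ := (Submodule.mem_span_range_iff_exists_fun ℂ).1 h1
      exact ⟨m, fun _ => hm.symm⟩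
    · exact ⟨0, fun h => absurd h hJ⟩
  choose mm hmm using hmm
  have hγ : ∀ J : Finset Λ, ∃ γ : Fin (s J) → ℂ, J.card = I + 1 → c J = ∑ κ, γ κ • w J κ := by
    intro J
    by_cases hJ : J.card = I + 1
    · obtain ⟨γ, hγ⟩ := (Submodule.mem_span_range_iff_exists_fun ℂ).1
        (hwspan J (c J) fun a => hcs J a hJ)
      exact ⟨γ, fun _ => hγ.symm⟩
    · exact ⟨0, fun h => absurd h hJ⟩
  choose γ hγ using hγ
  let X : Type := Σ J : Finset Λ, Fin (s J)
  let M : X → X → ℂ := fun x y => if y.1.card = I + 1 then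
    ∑ a ∈ y.1, (if y.1.erase a = x.1 then (sgn a y.1 : ℂ) * mm x.1 y.1 x.2 y.2 else 0) else 0
  let γγ : X → ℂ := fun y => if y.1.card = I + 1 then γ y.1 y.2 else 0
  -- the solution
  obtain ⟨η, hη⟩ := solve M γγ (by
    intro S
    let S' : Finset ℂ := S ∪ ((Finset.univ.biUnion fun J' : Finset Λ => Finset.univ.biUnion
      fun J : Finset Λ => Finset.univ.biUnion fun k' : Fin (s J') =>
        Finset.univ.image fun κ : Fin (s J) => mm J' J k' κ) ∪
      Finset.univ.biUnion fun J : Finset Λ => Finset.univ.image fun κ : Fin (s J) => γ J κ)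
    let B : Subring ℂ := Subring.closure (S' : Set ℂ)
    have hSB : ∀ v ∈ S', v ∈ B := fun v hv => Subring.subset_closure hv
    have hmmB : ∀ J' J k' κ, mm J' J k' κ ∈ B := fun J' J k' κ => hSB _
      (Finset.mem_union_right _ (Finset.mem_union_left _ (Finset.mem_biUnion.2
        ⟨J', Finset.mem_univ _, Finset.mem_biUnion.2 ⟨J, Finset.mem_univ _, Finset.mem_biUnion.2
          ⟨k', Finset.mem_univ _, Finset.mem_image_of_mem _ (Finset.mem_univ κ)⟩⟩⟩)))
    have hγB : ∀ J κ, γ J κ ∈ B := fun J κ => hSB _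
      (Finset.mem_union_right _ (Finset.mem_union_right _ (Finset.mem_biUnion.2
        ⟨J, Finset.mem_univ _, Finset.mem_image_of_mem _ (Finset.mem_univ κ)⟩)))
    let mB : ∀ J' J : Finset Λ, Fin (s J') → Fin (s J) → B := fun J' J k' κ =>
      ⟨mm J' J k' κ, hmmB J' J k' κ⟩
    let gB : ∀ J : Finset Λ, Fin (s J) → B := fun J κ => ⟨γ J κ, hγB J κ⟩
    have E1 : Ev t y fun R => ∀ j, z j ∈ R.Λ ∧ (z j)⁻¹ ∈ R.Λ ∧ R.r (z j) ≠ 0 :=
      Ev.all fun j => ev_ne (hz j)
    have E2 : Ev t y fun R => ∀ a, φ a ∈ R.Λ ∧ (φ a)⁻¹ ∈ R.Λ ∧ R.r (φ a) ≠ 0 :=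
      Ev.all fun a => ev_ne (hφ a)
    have E3 : Ev t y fun R => ∀ a b, φ b / φ a ∈ R.Λ ∧
        R.r (φ b / φ a) ∈ AJ (fun j => R.r (z j)) σ {a, b} :=
      Ev.all fun a => Ev.all fun b => (T.ev_AR hz σ {a, b} (hφ' a b)).mono fun R hR =>
        ⟨hR.1, hR.2.2⟩
    have E6 : Ev t y fun R => ∀ (J : Finset Λ) (κ : Fin (s J)), w J κ ∈ R.Λ :=
      Ev.all fun J => Ev.all fun κ => ev_mem _
    have E7 : Ev t y fun R => ∀ (J : Finset Λ) (a : Λ), J.card = I + 1 →
        c J / tw z σ φ e J a ∈ R.Λ ∧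
          R.r (c J / tw z σ φ e J a) ∈ AJ (fun j => R.r (z j)) σ {a} := by
      refine Ev.all fun J => Ev.all fun a => ?_
      by_cases hJ : J.card = I + 1
      · exact (T.ev_AR hz σ {a} (hcs J a hJ)).mono fun R hR _ => ⟨hR.1, hR.2.2⟩
      · exact Ev.of_forall fun R h => absurd h hJ
    have E8 : Ev t y fun R => ∀ J : Finset Λ, c J ∈ R.Λ := Ev.all fun J => ev_mem _
    obtain ⟨R, hR⟩ := Ev.exists hp (((((ev_B S').and E1).and (E2.and E3)).and
      ((Ev.all hwEv).and hl₀)).and ((E6.and E7).and (E8.and h)))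
    obtain ⟨⟨⟨⟨hB, hzR⟩, hφR, htrR⟩, hlift, hrow⟩, ⟨hwR, hcR⟩, hcΛ, hvan⟩ := hR
    have hz' : ∀ j, R.r (z j) ≠ 0 := fun j => (hzR j).2.2
    -- the generators
    have htwR : ∀ (J : Finset Λ) (a : Λ), tw z σ φ e J a ∈ R.Λ ∧ R.r (tw z σ φ e J a) =
        tw (fun j => R.r (z j)) σ (fun a => R.r (φ a)) e J a := by
      intro J a
      have h1 : ∀ b ∈ J, z (σ a) / z (σ b) ∈ R.Λ := fun b _ => by
        rw [div_eq_mul_inv]
        exact R.Λ.mul_mem (hzR _).1 (hzR _).2.1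
      have h2 : ∀ b ∈ J, R.r (z (σ a) / z (σ b)) = R.r (z (σ a)) / R.r (z (σ b)) := fun b _ => by
        rw [div_eq_mul_inv, R.r_mul (hzR _).1 (hzR _).2.1, R.r_inv (hz _) (hzR _).1 (hzR _).2.1,
          div_eq_mul_inv]
      have h3 : ∏ b ∈ J, z (σ a) / z (σ b) ∈ R.Λ := R.Λ.prod_mem h1
      unfold tw
      refine ⟨R.Λ.mul_mem (hφR a).1 (R.Λ.pow_mem h3 e), ?_⟩
      rw [R.r_mul (hφR a).1 (R.Λ.pow_mem h3 e), R.r_pow h3, R.r_prod _ _ h1,
        Finset.prod_congr rfl h2]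
    have htr' : ∀ a b, ∃ x ∈ AJ (fun j => R.r (z j)) σ {a, b}, R.r (φ b) = R.r (φ a) * x := by
      intro a b
      refine ⟨_, (htrR a b).2, ?_⟩
      rw [← R.r_mul (hφR a).1 (htrR a b).1, mul_div_cancel₀ _ (hφ a)]
    have hrow' : ∀ J : Finset Λ, J.Nonempty → ∀ b, 1 ≤ b →
        Van1 (sh (AJ (fun j => R.r (z j)) σ)
          (tw (fun j => R.r (z j)) σ (fun a => R.r (φ a)) e J)) b := by
      intro J hJ b hb
      have h1 := hrow (J.card * e) (hel.trans (Nat.le_mul_of_pos_left e hJ.card_pos))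
      have h2 : (∏ b ∈ J, R.r (z (σ b)))⁻¹ ^ e ≠ 0 :=
        pow_ne_zero _ (inv_ne_zero (Finset.prod_ne_zero_iff.2 fun _ _ => hz' _))
      have h3 := KVan_sh_mul h2 h1
      have h4 : (fun a => (∏ b ∈ J, R.r (z (σ b)))⁻¹ ^ e *
          (R.r (z (σ a)) ^ (J.card * e) * R.r (φ a))) =
          tw (fun j => R.r (z j)) σ (fun a => R.r (φ a)) e J := by
        funext a
        unfold tw
        rw [Finset.prod_div_distrib, Finset.prod_const, div_pow, ← pow_mul, inv_pow]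
        field_simp
      rw [h4] at h3
      exact h3 b hb
    obtain ⟨v, hv1, hv2⟩ := dblp hz' htr' e hvan hrow' (fun J => R.r (c J)) (fun J hJ a => by
        refine ⟨_, (hcR J a hJ).2, ?_⟩
        rw [← (htwR J a).2, ← R.r_mul (htwR J a).1 (hcR J a hJ).1,
          mul_div_cancel₀ _ (tw_ne hz hφ e J a)])
      (fun J hJ => by rw [r_cd R hcΛ, hcd J hJ, R.r_zero])
    have hη' : ∀ J : Finset Λ, ∃ η' : Fin (s J) → ZMod R.p,
        J.card = I → v J = ∑ κ, η' κ • R.r (w J κ) := by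
      intro J
      by_cases hJ : J.card = I
      · obtain ⟨η', h1⟩ := (hlift J).2 (v J) fun a => by
          obtain ⟨x, hx, hx'⟩ := hv1 J hJ a
          exact ⟨x, hx, by rw [(htwR J a).2]; exact hx'⟩
        exact ⟨η', fun _ => h1⟩
      · exact ⟨0, fun h => absurd h hJ⟩
    choose η' hη' using hη'
    refine ⟨B, ZMod R.p, inferInstance, R.ψB B hB, fun x => η' x.1 x.2,
      fun x y => if y.1.card = I + 1 then
        ∑ a ∈ y.1, (if y.1.erase a = x.1 then (sgn a y.1 : B) * mB x.1 y.1 x.2 y.2 else 0) else 0,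
      fun y => if y.1.card = I + 1 then gB y.1 y.2 else 0,
      fun v hv => hSB v (Finset.mem_union_left _ hv), ?_, ?_, ?_⟩
    · intro x y
      simp only [M]
      split_ifs
      · push_cast
        refine Finset.sum_congr rfl fun a _ => ?_
        split_ifs <;> simp [mB]
      · rfl
    · intro y
      simp only [γγ]
      split_ifs
      · rfl
      · rfl
    · rintro ⟨J, κ⟩
      by_cases hJ : J.card = I + 1
      · simp only [if_pos hJ]
        have h1 : ∀ x : X, R.ψB B hB (∑ a ∈ J, (if J.erase a = x.1 then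
            (sgn a J : B) * mB x.1 J x.2 κ else 0)) =
            ∑ a ∈ J, (if J.erase a = x.1 then
              (sgn a J : ZMod R.p) * R.ψB B hB (mB x.1 J x.2 κ) else 0) := by
          intro x
          rw [map_sum]
          refine Finset.sum_congr rfl fun a _ => ?_
          split_ifs
          · rw [map_mul, map_intCast]
          · rw [map_zero]
        rw [Finset.sum_congr rfl fun x _ => by rw [h1 x]]
        have h2 := sum_M (fun J' J k' κ => R.ψB B hB (mB J' J k' κ))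
          (fun x : (Σ J : Finset Λ, Fin (s J)) => η' x.1 x.2) J κ
        rw [h2]
        have h3 := cd_expand (fun J κ => R.r (w J κ)) (fun J' J k' κ => R.ψB B hB (mB J' J k' κ))
          (fun J' J k' hJ' => by
            rw [hmm J' J k' hJ']
            exact r_comb R hB (fun κ => mB J' J k' κ) (w J) (hwR J))
          (fun x : (Σ J : Finset Λ, Fin (s J)) => η' x.1 x.2) J
        have h4 : cd (fun J' => ∑ k', η' J' k' • R.r (w J' k')) J = R.r (c J) := by
          rw [← hv2 J hJ]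
          refine Finset.sum_congr rfl fun a ha => ?_
          rw [hη' (J.erase a) (by rw [Finset.card_erase_of_mem ha]; omega)]
        have h5 : R.r (c J) = ∑ κ, R.ψB B hB (gB J κ) • R.r (w J κ) := by
          rw [hγ J hJ]
          exact r_comb R hB (fun κ => gB J κ) (w J) (hwR J)
        rw [h4, h5] at h3
        have h6 := Fintype.linearIndependent_iff.1 (hlift J).1
          (fun κ => R.ψB B hB (gB J κ) - ∑ a ∈ J, (sgn a J : ZMod R.p) *
            ∑ k', η' (J.erase a) k' * R.ψB B hB (mB (J.erase a) J k' κ)) (by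
          simp only [sub_smul, Finset.sum_sub_distrib]
          rw [sub_eq_zero]
          exact h3) κ
        exact sub_eq_zero.1 h6
      · simp only [if_neg hJ, map_zero, mul_zero, Finset.sum_const_zero])
  -- the cochain
  refine ⟨fun J => ∑ κ, η ⟨J, κ⟩ • w J κ, fun J hJ a ha => ?_, fun J hJ => ?_⟩
  · have h1 : ∀ κ, w J κ / φ a ∈ AR ℂ z σ J := by
      intro κ
      have h2 : w J κ / φ a = w J κ / tw z σ φ e J a * (∏ b ∈ J, z (σ a) / z (σ b)) ^ e := by
        have h3 : (∏ b ∈ J, z (σ a) / z (σ b)) ≠ 0 :=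
          Finset.prod_ne_zero_iff.2 fun _ _ => div_ne_zero (hz _) (hz _)
        have h4 := hφ a
        unfold tw
        field_simp
      rw [h2]
      exact Subalgebra.mul_mem _ (AR_mono (Finset.singleton_subset_iff.2 ha) (hws J κ a))
        (Subalgebra.pow_mem _ (Subalgebra.prod_mem _ fun b hb => AR_gen hb _) _)
    show (∑ κ, η ⟨J, κ⟩ • w J κ) / φ a ∈ AR ℂ z σ J
    rw [Finset.sum_div]
    refine Subalgebra.sum_mem _ fun κ _ => ?_
    rw [smul_div_assoc]
    exact Subalgebra.smul_mem _ (h1 κ) _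
  · rw [cd_expand w mm (fun J' J k' hJ' => hmm J' J k' hJ') η J, hγ J hJ]
    refine Finset.sum_congr rfl fun κ _ => ?_
    congr 1
    have h1 := hη ⟨J, κ⟩
    simp only [γγ, M, if_pos hJ] at h1
    rw [h1]
    exact (sum_M mm η J κ).symm

end Pool.Agent.Lib.MP_732f67_ag.KV
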