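import Pool.Agent.Lib.MP_732f67_ag.KV.AtB
import Pool.Agent.Lib.MP_732f67_ag.KV.Bc
import Pool.Agent.Lib.MP_732f67_ag.T.PB
import Pool.Agent.Lib.MP_732f67_ag.G.RedMod

/-!
# Project KM, part V2: Kawamata - Viehweg vanishing over `ℂ` on an atlas of étale charts
-/

set_option autoImplicit false
set_option linter.unusedSectionVars false

namespace Pool.Agent.Lib.MP_732f67_ag.KV

open Pool.Agent.KM
open Pool.Agent.Lib.MP_732f67_ag.KC (ev2 A2 ep jac bet AJ ceα kap KVan Kl)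
open Pool.Agent.Lib.MP_732f67_ag.V (AR)
open Pool.Agent.Lib.MP_732f67_ag.T (Dual DZ ev_pb)

variable {L : Type} [Field L] [Algebra ℂ L] {n : ℕ} {E : Type} [Fintype E] {X : Dt L n E}

/-- **the vanishing at the reductions** -/
theorem ev_kv (hX : X.Ok) : Ev X.t X.y0 fun R => ∀ i, 1 ≤ i →
    Van1 (sh (AJ (fun j => R.r (X.z j)) X.σ) fun a => R.r (nuC X a)) i := by
  obtain ⟨l₀, h0⟩ := ev_van hX
  have h1 : Ev X.t X.y0 fun R => ∀ a, X.jac a ∈ R.Λ ∧ (X.jac a)⁻¹ ∈ R.Λ ∧ R.r (X.jac a) ≠ 0 :=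
    Ev.all fun a => ev_ne (jacC_ne hX a)
  refine ((((h0.and (ev_geo hX)).and ((ev_pb hX.prim).and (ev_pol hX))).and
    (((ev_jac hX).and (ev_base hX)).and (h1.and (vgeo_prod hX fun j => -ceα X.m X.b j)))).and
    ((ev_dvd X.m hX.m_pos).and (ev_large (X.m * l₀ + n + 1)))).mono fun R hR i hi => ?_
  obtain ⟨⟨⟨⟨hvan, f, hgeo⟩, hpb, un, hP⟩, ⟨hjac, -, hg, -⟩, hj, hprod⟩, ⟨l, hl⟩, hlarge⟩ := hR
  obtain ⟨D, Tr, hr, -⟩ := KC.exists_ref hpb
  have hD : Dual R D := hr.Dt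
  have hp1 : 1 ≤ R.p := R.hp.out.one_le
  have hll : l₀ ≤ l := by
    by_contra hcon
    have h1 : X.m * l ≤ X.m * l₀ := Nat.mul_le_mul_left _ (not_le.1 hcon).le
    omega
  have hp : R.p = X.m * l + 1 := by omega
  have hn : n < R.p := by omega
  have h2 := Geo.kv (tt := fun k => R.r2 (X.t k)) hn hgeo hpb hr (fun _ => rfl) hP hp
    (hvan l hll D hD) hi
  have h3 : nu X.m D (fun a l => R.π (R.r2 (X.x a l))) X.co (fun a => R.r (X.g a)) X.b =
      fun a => R.r (nuC X a) := by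
    funext a
    unfold nu nuC
    have h4 : ∏ j, X.ε a j ^ (-ceα X.m X.b j) ∈ R.Λ ∧
        R.r (∏ j, X.ε a j ^ (-ceα X.m X.b j)) =
          ∏ j, ep (fun a i => R.r (X.x a i)) X.co a j ^ (-ceα X.m X.b j) := by
      have h5 := hprod a
      simp only [ep_eq] at h5
      exact h5
    have h6 : (X.g a)⁻¹ ∈ R.Λ := (hg a).2.1
    rw [R.r_mul (R.Λ.mul_mem (hj a).1 h6) h4.1, R.r_mul (hj a).1 h6,
      R.r_inv (hX.g_ne a) (hg a).1 h6, h4.2]
    have h7 : jac D (fun a l => R.π (R.r2 (X.x a l))) a = R.r (X.jac a) := (hjac D hD a).2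
    rw [h7]
    rfl
  rw [h3] at h2
  exact h2

/-- **Kawamata - Viehweg vanishing over `ℂ`, on an atlas of étale charts** -/
theorem kvC (hX : X.Ok) : KVan (shC X.z X.σ (nuC X)) := fun _ hi =>
  bc hX.prim (vgeo hX) (nuC_ne hX) (nuC_trans hX) hi ((ev_kv hX).mono fun _ hR => hR _ hi)

end Pool.Agent.Lib.MP_732f67_ag.KV
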