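import Pool.Agent.Lib.MP_732f67_ag.KV.Coh
import Pool.Agent.Lib.MP_732f67_ag.V.EvK
import Pool.Agent.Lib.MP_732f67_ag.V.Out1

/-!
# Project KM, part V2: base change, preparations
-/

set_option autoImplicit false
set_option linter.unusedSectionVars false

namespace Pool.Agent.Lib.MP_732f67_ag.KV

open Pool.Agent.Lib.MP_732f67_ag.KC (AJ AJ_mono div_mem_AJ cd cd_cd cd_map cd_congr KVan)
open Pool.Agent.Lib.MP_732f67_ag.V (AR AR_mono AR_gen LJ)
open Pool.Agent.KM

/-- a linear system over `ℂ` has a solution if it has solutions in reductions with large rings of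
definition -/
theorem solve {X Y : Type} [Fintype X] [Fintype Y] (M : X → Y → ℂ) (γ : Y → ℂ)
    (h : ∀ S : Finset ℂ, ∃ (B : Subring ℂ) (k : Type) (_ : Field k) (ψ : B →+* k) (η : X → k)
      (M' : X → Y → B) (γ' : Y → B), (∀ c ∈ S, c ∈ B) ∧ (∀ x y, (M' x y : ℂ) = M x y) ∧
        (∀ y, (γ' y : ℂ) = γ y) ∧ ∀ y, ψ (γ' y) = ∑ x, η x * ψ (M' x y)) :
    ∃ η : X → ℂ, ∀ y, γ y = ∑ x, η x * M x y := by
  classical
  by_contra hcon
  have hnot : γ ∉ Submodule.span ℂ (Set.range M) := by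
    intro hγ
    obtain ⟨η, hη⟩ := (Submodule.mem_span_range_iff_exists_fun ℂ).1 hγ
    refine hcon ⟨η, fun y => ?_⟩
    rw [← hη, Finset.sum_apply]
    rfl
  obtain ⟨f, hf, hf'⟩ := Submodule.exists_dual_map_eq_bot_of_notMem hnot inferInstance
  have hM : ∀ x, f (M x) = 0 := fun x => by
    have h1 : f (M x) ∈ Submodule.map f (Submodule.span ℂ (Set.range M)) :=
      Submodule.mem_map_of_mem (Submodule.subset_span ⟨x, rfl⟩)
    rw [hf'] at h1
    exact (Submodule.mem_bot ℂ).1 h1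
  have hexp : ∀ v : Y → ℂ, f v = ∑ y, v y * f (Pi.single y 1) := by
    intro v
    conv_lhs => rw [pi_eq_sum_univ' v]
    rw [map_sum]
    refine Finset.sum_congr rfl fun y _ => ?_
    rw [map_smul, smul_eq_mul]
  obtain ⟨B, k, _, ψ, η, M', γ', hS, hM', hγ', he⟩ :=
    h (insert ((f γ)⁻¹) (Finset.univ.image fun y => f (Pi.single y 1)))
  let lam : Y → B := fun y => ⟨f (Pi.single y 1), hS _ (Finset.mem_insert_of_mem
    (Finset.mem_image_of_mem _ (Finset.mem_univ y)))⟩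
  let c : B := ⟨(f γ)⁻¹, hS _ (Finset.mem_insert_self _ _)⟩
  have h1 : ∀ x, ∑ y, M' x y * lam y = 0 := fun x => by
    apply Subtype.ext
    push_cast
    simp only [hM', lam]
    rw [← hexp, hM]
  have h2 : (∑ y, γ' y * lam y) * c = 1 := by
    apply Subtype.ext
    push_cast
    simp only [hγ', lam, c]
    rw [← hexp]
    exact mul_inv_cancel₀ hf
  have h3 := congrArg ψ h2
  rw [map_mul, map_sum, map_one] at h3
  have h4 : ∑ y, ψ (γ' y * lam y) = 0 := by
    have h5 : ∑ y, ψ (γ' y * lam y) = ∑ x, η x * ψ (∑ y, M' x y * lam y) := by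
      simp only [map_mul, map_sum, he, Finset.sum_mul, Finset.mul_sum]
      rw [Finset.sum_comm]
      refine Finset.sum_congr rfl fun x _ => Finset.sum_congr rfl fun y _ => ?_
      ring
    rw [h5]
    refine Finset.sum_eq_zero fun x _ => ?_
    rw [h1, map_zero, mul_zero]
  rw [h4, zero_mul] at h3
  exact zero_ne_one h3

section clear

variable {F : Type*} [Field F] {N : ℕ} {Λ : Type} {R : Type*} [CommRing R] [Algebra R F]
  {z : Fin N → F} {σ : Λ → Fin N}

/-- a power of the product of the `z (σ b) / z (σ a)` clears the denominators -/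
theorem AR_clearJ [DecidableEq Λ] (hz : ∀ j, z j ≠ 0) {a : Λ} {J : Finset Λ} {x : F}
    (hx : x ∈ AR R z σ (insert a J)) :
    ∃ k₀ : ℕ, ∀ k, k₀ ≤ k → (∏ b ∈ J, z (σ b) / z (σ a)) ^ k * x ∈ AR R z σ {a} := by
  have ha : a ∈ ({a} : Finset Λ) := Finset.mem_singleton_self a
  have hw : ∀ (K : Finset Λ) (k : ℕ), (∏ b ∈ K, z (σ b) / z (σ a)) ^ k ∈ AR R z σ {a} := fun K k =>
    Subalgebra.pow_mem _ (Subalgebra.prod_mem _ fun b _ => AR_gen ha (σ b)) k
  unfold AR at hx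
  induction hx using Algebra.adjoin_induction with
  | mem x hx =>
    obtain ⟨j, l, hl, rfl⟩ := hx
    rw [Finset.mem_insert] at hl
    rcases hl with rfl | hl
    · exact ⟨0, fun k _ => Subalgebra.mul_mem _ (hw J k) (AR_gen ha j)⟩
    · refine ⟨1, fun k hk => ?_⟩
      obtain ⟨c, rfl⟩ := Nat.exists_eq_add_of_le hk
      have e1 : (∏ b ∈ J, z (σ b) / z (σ a)) ^ (1 + c) * (z j / z (σ l)) =
          (∏ b ∈ J, z (σ b) / z (σ a)) ^ c * ((∏ b ∈ J.erase l, z (σ b) / z (σ a)) ^ 1 *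
            (z j / z (σ a))) := by
        have h1 := hz (σ l)
        have h2 := hz (σ a)
        have h3 : ∏ b ∈ J, z (σ b) / z (σ a) =
            (z (σ l) / z (σ a)) * ∏ b ∈ J.erase l, z (σ b) / z (σ a) :=
          (Finset.mul_prod_erase J (fun c => z (σ c) / z (σ a)) hl).symm
        rw [pow_add, pow_one, pow_one]
        conv_lhs => rw [mul_assoc, mul_comm _ (z j / z (σ l)), ← mul_assoc, h3]
        rw [h3]
        field_simp
      rw [e1]
      exact Subalgebra.mul_mem _ (hw J c) (Subalgebra.mul_mem _ (hw _ 1) (AR_gen ha j))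
  | algebraMap r =>
    exact ⟨0, fun k _ => Subalgebra.mul_mem _ (hw J k) (Subalgebra.algebraMap_mem _ r)⟩
  | add x y _ _ hx hy =>
    obtain ⟨k1, h1⟩ := hx
    obtain ⟨k2, h2⟩ := hy
    refine ⟨max k1 k2, fun k hk => ?_⟩
    rw [mul_add]
    exact Subalgebra.add_mem _ (h1 k (le_trans (le_max_left _ _) hk))
      (h2 k (le_trans (le_max_right _ _) hk))
  | mul x y _ _ hx hy =>
    obtain ⟨k1, h1⟩ := hx
    obtain ⟨k2, h2⟩ := hy
    refine ⟨k1 + k2, fun k hk => ?_⟩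
    obtain ⟨c, rfl⟩ := Nat.exists_eq_add_of_le hk
    have e1 : (∏ b ∈ J, z (σ b) / z (σ a)) ^ (k1 + k2 + c) * (x * y) =
        ((∏ b ∈ J, z (σ b) / z (σ a)) ^ k1 * x) *
          ((∏ b ∈ J, z (σ b) / z (σ a)) ^ (k2 + c) * y) := by
      rw [add_assoc, pow_add]
      ring
    rw [e1]
    exact Subalgebra.mul_mem _ (h1 k1 le_rfl) (h2 (k2 + c) (Nat.le_add_right _ _))

end clear

section tw

variable {F : Type*} [Field F] {N : ℕ} {Λ : Type} [LinearOrder Λ]

/-- the local generators of the divisor with poles of order `e` along the `z (σ b) = 0`, `b ∈ J` -/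
def tw (z : Fin N → F) (σ : Λ → Fin N) (φ : Λ → F) (e : ℕ) (J : Finset Λ) (a : Λ) : F :=
  φ a * (∏ b ∈ J, z (σ a) / z (σ b)) ^ e

variable {z : Fin N → F} {σ : Λ → Fin N} {φ : Λ → F}

theorem tw_ne (hz : ∀ j, z j ≠ 0) (hφ : ∀ a, φ a ≠ 0) (e : ℕ) (J : Finset Λ) (a : Λ) :
    tw z σ φ e J a ≠ 0 :=
  mul_ne_zero (hφ a) (pow_ne_zero _ (Finset.prod_ne_zero_iff.2 fun _ _ =>
    div_ne_zero (hz _) (hz _)))

/-- the change of the chart -/
theorem tw_chart (hz : ∀ j, z j ≠ 0) (e : ℕ) (J : Finset Λ) {a b : Λ} {c : F}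
    (h : φ b = φ a * c) :
    tw z σ φ e J b = tw z σ φ e J a * (c * (z (σ b) / z (σ a)) ^ (J.card * e)) := by
  have h1 : ∏ d ∈ J, z (σ b) / z (σ d) = (∏ d ∈ J, z (σ a) / z (σ d)) *
      (z (σ b) / z (σ a)) ^ J.card := by
    rw [← Finset.prod_const, ← Finset.prod_mul_distrib]
    refine Finset.prod_congr rfl fun d _ => ?_
    have := hz (σ a)
    have := hz (σ d)
    field_simp
  unfold tw
  rw [h, h1, mul_pow, pow_mul]
  ring

/-- the change of the set of poles -/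
theorem tw_sub (hz : ∀ j, z j ≠ 0) (e : ℕ) {J J' : Finset Λ} (h : J ⊆ J') (a : Λ) :
    tw z σ φ e J a = tw z σ φ e J' a * (∏ b ∈ J' \ J, z (σ b) / z (σ a)) ^ e := by
  have h1 : (∏ d ∈ J', z (σ a) / z (σ d)) * ∏ b ∈ J' \ J, z (σ b) / z (σ a) =
      ∏ d ∈ J, z (σ a) / z (σ d) := by
    rw [← Finset.prod_sdiff h, mul_right_comm, ← Finset.prod_mul_distrib, Finset.prod_eq_one,
      one_mul]
    intro d _
    have := hz (σ a)
    have := hz (σ d)
    field_simp
  unfold tw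
  rw [mul_assoc, ← mul_pow, h1]

theorem tw_empty (e : ℕ) : tw z σ φ e ∅ = φ := by
  funext a
  unfold tw
  rw [Finset.prod_empty, one_pow, mul_one]

/-- the complex of the global sections, over any field -/
theorem dblp [Nonempty Λ] (hz : ∀ j, z j ≠ 0)
    (htr : ∀ a b, ∃ c ∈ AJ z σ {a, b}, φ b = φ a * c) (e : ℕ) {I : ℕ}
    (h0 : Van1 (sh (AJ z σ) φ) I)
    (hrow : ∀ J : Finset Λ, J.Nonempty → ∀ b, 1 ≤ b → Van1 (sh (AJ z σ) (tw z σ φ e J)) b)
    (x : Finset Λ → F)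
    (hx : ∀ J, J.card = I + 1 → ∀ a, ∃ y ∈ AJ z σ {a}, x J = tw z σ φ e J a * y)
    (hcd : ∀ J, J.card = I + 2 → cd x J = 0) :
    ∃ y : Finset Λ → F,
      (∀ J, J.card = I → ∀ a, ∃ v ∈ AJ z σ {a}, y J = tw z σ φ e J a * v) ∧
      ∀ J, J.card = I + 1 → cd y J = x J := by
  have hmem : ∀ (J : Finset Λ) (a : Λ) (v : F), v ∈ sh (AJ z σ) (tw z σ φ e J) {a} ↔
      ∃ y ∈ AJ z σ {a}, v = tw z σ φ e J a * y := by
    intro J a v
    constructor
    · intro h
      exact h a (Finset.mem_singleton_self a)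
    · intro h b hb
      rw [Finset.mem_singleton] at hb
      subst hb
      exact h
  have hJ : ∀ J J' K : Finset Λ, J ⊆ J' →
      sh (AJ z σ) (tw z σ φ e J) K ≤ sh (AJ z σ) (tw z σ φ e J') K := by
    intro J J' K hJ v hv a ha
    obtain ⟨y, hy, e1⟩ := hv a ha
    refine ⟨(∏ b ∈ J' \ J, z (σ b) / z (σ a)) ^ e * y, Subring.mul_mem _ (Subring.pow_mem _
      (Subring.prod_mem _ fun b _ => div_mem_AJ z σ ha _) _) hy, ?_⟩
    rw [e1, tw_sub hz e hJ a, mul_assoc]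
  have hins : ∀ (J K : Finset Λ) (a : Λ), a ∈ K →
      sh (AJ z σ) (tw z σ φ e (insert a J)) K ≤ sh (AJ z σ) (tw z σ φ e J) K := by
    intro J K a ha v hv b hb
    obtain ⟨y, hy, e1⟩ := hv b hb
    by_cases haJ : a ∈ J
    · rw [Finset.insert_eq_of_mem haJ] at e1
      exact ⟨y, hy, e1⟩
    · refine ⟨(z (σ b) / z (σ a)) ^ e * y, Subring.mul_mem _ (Subring.pow_mem _
        (div_mem_AJ z σ ha _) _) hy, ?_⟩
      rw [e1]
      unfold tw
      rw [Finset.prod_insert haJ, mul_pow]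
      ring
  have hK : ∀ J K K' : Finset Λ, K.Nonempty → K ⊆ K' →
      sh (AJ z σ) (tw z σ φ e J) K ≤ sh (AJ z σ) (tw z σ φ e J) K' := by
    intro J K K' hK hKK' v hv b hb
    obtain ⟨a, ha⟩ := hK
    obtain ⟨y, hy, e1⟩ := hv a ha
    obtain ⟨c, hc, hφc⟩ := htr b a
    have hb' : ({b, a} : Finset Λ) ⊆ K' := by
      intro d hd
      rw [Finset.mem_insert, Finset.mem_singleton] at hd
      rcases hd with rfl | rfl
      · exact hb
      · exact hKK' ha
    refine ⟨c * (z (σ a) / z (σ b)) ^ (J.card * e) * y, Subring.mul_mem _ (Subring.mul_mem _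
      (AJ_mono z σ hb' hc) (Subring.pow_mem _ (div_mem_AJ z σ hb _) _)) (AJ_mono z σ hKK' hy), ?_⟩
    rw [e1, tw_chart hz e J hφc]
    ring
  have h0' : Van1 (sh (AJ z σ) (tw z σ φ e ∅)) I := by
    rw [tw_empty]
    exact h0
  obtain ⟨y, h1, h2⟩ := dbl (F := fun J K => sh (AJ z σ) (tw z σ φ e J) K) (I := I) hins
    (fun J J' K _ => hJ J J' K) hK h0' hrow x (fun J hJc a => (hmem J a _).2 (hx J hJc a)) hcd
  exact ⟨y, fun J hJc a => (hmem J a _).1 (h1 J hJc a), h2⟩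

/-- vanishing for a multiple of the lattice -/
theorem KVan_sh_mul {A : Finset Λ → Subring F} {ν : Λ → F} {v : F} (hv : v ≠ 0)
    (h : KVan (sh A ν)) : KVan (sh A (fun a => v * ν a)) := by
  have hcd : ∀ (c : F) (w : Finset Λ → F) (J : Finset Λ),
      cd (fun J => c * w J) J = c * cd w J := fun c w J =>
    cd_map (AddMonoidHom.mulLeft c) w J
  intro b hb w hw hw'
  obtain ⟨u, hu, hu'⟩ := h b hb (fun J => v⁻¹ * w J) (fun J hJ a ha => by
      obtain ⟨y, hy, e⟩ := hw J hJ a ha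
      refine ⟨y, hy, ?_⟩
      show v⁻¹ * w J = ν a * y
      rw [e, mul_assoc, inv_mul_cancel_left₀ hv])
    (fun J hJ => by rw [hcd, hw' J hJ, mul_zero])
  refine ⟨fun J => v * u J, fun J hJ a ha => ?_, fun J hJ => ?_⟩
  · obtain ⟨y, hy, e⟩ := hu J hJ a ha
    refine ⟨y, hy, ?_⟩
    show v * u J = (v * ν a) * y
    rw [e, mul_assoc]
  · rw [hcd, hu' J hJ, mul_inv_cancel_left₀ hv]

end tw

variable {L : Type} [Field L] [Algebra ℂ L] {n : ℕ} {t : Fin n → L} {y : L} {N : ℕ} {Λ : Type}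
  [LinearOrder Λ] [Fintype Λ]

/-- uniform Serre vanishing for line bundles -/
theorem ev_row (ht : IsTranscendenceBasis ℂ t) {z : Fin N → L} {σ : Λ → Fin N}
    (hg : V.Geo n z σ) {φ : Λ → L} (hφ : ∀ a, φ a ≠ 0)
    (hφ' : ∀ a b, φ b / φ a ∈ AR ℂ z σ {a, b}) :
    ∃ l₀ : ℕ, Ev t y fun R => ∀ l, l₀ ≤ l →
      KVan (sh (AJ (fun j => R.r (z j)) σ) fun a => R.r (z (σ a)) ^ l * R.r (φ a)) := by
  obtain ⟨l₀, hl⟩ := V.ev_kvan (y := y) ht hg (κ := Unit) (T := Unit)
    (ω := fun a _ _ => φ a) (fun a => by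
      rw [linearIndependent_unique_iff]
      intro h
      exact hφ a (congrFun h ()))
    (fun a b s => ⟨fun _ => φ b / φ a, fun _ => hφ' a b, by
      funext i
      simp only [Finset.univ_unique, Finset.sum_const, Finset.card_singleton, one_smul,
        Pi.smul_apply, smul_eq_mul]
      rw [div_mul_cancel₀ _ (hφ a)]⟩)
  refine ⟨l₀, hl.mono fun R hR l hll => ?_⟩
  refine V.KVan_equiv ((LinearEquiv.funUnique Unit R.F R.F).symm.toAddEquiv) ?_ (hR l hll)
  intro J _ x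
  show (∀ a ∈ J, _) ↔ (∀ a ∈ J, _)
  refine forall_congr' fun a => forall_congr' fun _ => ?_
  constructor
  · rintro ⟨v, hv, e⟩
    refine ⟨fun _ => v, fun _ => hv, ?_⟩
    funext i
    show x = _
    rw [e]
    simp only [Finset.univ_unique, Finset.sum_const, Finset.card_singleton, one_smul,
      Pi.smul_apply, smul_eq_mul]
    ring
  · rintro ⟨v, hv, e⟩
    refine ⟨v (), hv (), ?_⟩
    have h1 := congrFun e ()
    simp only [Finset.univ_unique, Finset.sum_singleton, Pi.smul_apply, smul_eq_mul] at h1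
    have h2 : x = (((LinearEquiv.funUnique Unit R.F R.F).symm.toAddEquiv x : Unit → R.F) ()) := rfl
    rw [h2, h1]
    show _ = R.r (z (σ a)) ^ l * R.r (φ a) * v default
    ring

end Pool.Agent.Lib.MP_732f67_ag.KV
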