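import Pool.Agent.Lib.MP_732f67_ag.KV.Cup

/-!
# Project KM, part V2: the vanishing in positive degrees, in characteristic `p`
-/

set_option autoImplicit false

open TensorProduct

namespace Pool.Agent.Lib.MP_732f67_ag.KV

open Pool.Agent.Lib.MP_732f67_ag.KC hiding removal hv
open Pool.Agent.Lib.MP_0b721b_ag (sgn)

section lists

variable {Λ : Type*} [LinearOrder Λ]

theorem sort_take (J : Finset Λ) (k : ℕ) :
    (((J.sort (· ≤ ·)).take k).toFinset).sort (· ≤ ·) = (J.sort (· ≤ ·)).take k := by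
  rw [List.toFinset_sort]
  · exact (Finset.pairwise_sort J (· ≤ ·)).sublist (List.take_sublist k _)
  · exact (Finset.sort_nodup J (· ≤ ·)).sublist (List.take_sublist k _)

theorem sort_drop (J : Finset Λ) (k : ℕ) :
    (((J.sort (· ≤ ·)).drop k).toFinset).sort (· ≤ ·) = (J.sort (· ≤ ·)).drop k := by
  rw [List.toFinset_sort]
  · exact (Finset.pairwise_sort J (· ≤ ·)).sublist (List.drop_sublist k _)
  · exact (Finset.sort_nodup J (· ≤ ·)).sublist (List.drop_sublist k _)

theorem take_sub (J : Finset Λ) (k : ℕ) : ((J.sort (· ≤ ·)).take k).toFinset ⊆ J := by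
  intro a ha
  rw [List.mem_toFinset] at ha
  exact (Finset.mem_sort _).1 (List.mem_of_mem_take ha)

theorem drop_sub (J : Finset Λ) (k : ℕ) : ((J.sort (· ≤ ·)).drop k).toFinset ⊆ J := by
  intro a ha
  rw [List.mem_toFinset] at ha
  exact (Finset.mem_sort _).1 (List.mem_of_mem_drop ha)

theorem take_card (J : Finset Λ) {k : ℕ} (hk : k ≤ J.card) :
    ((J.sort (· ≤ ·)).take k).toFinset.card = k := by
  rw [List.toFinset_card_of_nodup ((Finset.sort_nodup J (· ≤ ·)).sublist (List.take_sublist k _)),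
    List.length_take, Finset.length_sort, min_eq_left hk]

/-- the common vertex -/
theorem exists_mid (J : Finset Λ) {i : ℕ} (hi : i < J.card) :
    ∃ b, b ∈ ((J.sort (· ≤ ·)).take (i + 1)).toFinset ∧
      b ∈ ((J.sort (· ≤ ·)).drop i).toFinset := by
  have hl : i < (J.sort (· ≤ ·)).length := by rw [Finset.length_sort]; exact hi
  refine ⟨(J.sort (· ≤ ·))[i], ?_, ?_⟩
  · rw [List.mem_toFinset, List.mem_take_iff_getElem]
    exact ⟨i, by omega, rfl⟩
  · rw [List.mem_toFinset, List.mem_drop_iff_getElem]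
    exact ⟨0, by omega, by simp⟩

end lists

variable {n : ℕ} {L : Type*} [Field L] {p : ℕ} [Fact p.Prime] [CharP L p]
  {D : Fin n → Derivation ℤ L L} {t : Fin n → L} {Tr : L →+ L} {Λ : Type*} [LinearOrder Λ]
  {A : Finset Λ → Subring L} {β : Λ → Fin n → Fin n → L} {γ : Λ → Fin n → L} {κ₀ κ ν : Λ → L}

/-- the lattice `ν a * A J` -/
def sh (A : Finset Λ → Subring L) (ν : Λ → L) (J : Finset Λ) : AddSubgroup L where
  carrier := {x | ∀ a ∈ J, ∃ y ∈ A J, x = ν a * y}
  zero_mem' := fun a _ => ⟨0, Subring.zero_mem _, by rw [mul_zero]⟩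
  add_mem' := by
    intro x y hx hy a ha
    obtain ⟨x', hx', e⟩ := hx a ha
    obtain ⟨y', hy', e'⟩ := hy a ha
    exact ⟨x' + y', Subring.add_mem _ hx' hy', by rw [e, e', mul_add]⟩
  neg_mem' := by
    intro x hx a ha
    obtain ⟨x', hx', e⟩ := hx a ha
    exact ⟨-x', Subring.neg_mem _ hx', by rw [e, mul_neg]⟩

omit [Fact p.Prime] [CharP L p] in
/-- one chart is enough -/
theorem Kl_of_one (h : Chs p D t A β γ κ₀)
    (hκ : ∀ (J : Finset Λ) (a b : Λ), a ∈ J → b ∈ J → ∃ c ∈ A J, κ a = κ b * c) {J : Finset Λ}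
    {b : Λ} (hb : b ∈ J) {x y : Fm n L} (hy : y ∈ Log (A J) (β b)) (hx : x = κ b • y) :
    x ∈ Kl A β κ J := by
  intro a ha
  obtain ⟨c, hc, e⟩ := hκ J b a hb ha
  refine ⟨fn c * y, Subring.mul_mem _ (fn_mem_Log hc)
    (Log_mono le_rfl (fun l => h.chβ J b a hb ha l) hy), ?_⟩
  rw [hx, e, fn_smul, smul_smul]

/-- the lattices are stable under the exterior derivative -/
theorem dd_Kl (h : Chs p D t A β γ κ₀)
    (hdκ : ∀ a, ∃ y ∈ Log (A {a}) (β a), dd D (fn (κ a)) = κ a • y) {J : Finset Λ} {x : Fm n L}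
    (hx : x ∈ Kl A β κ J) : dd D x ∈ Kl A β κ J := by
  intro a ha
  obtain ⟨y, hy, rfl⟩ := hx a ha
  obtain ⟨y0, hy0, h0⟩ := hdκ a
  refine ⟨y0 * y + dd D y, ?_, ?_⟩
  · exact Subring.add_mem _ (Subring.mul_mem _ (Log_single_le h ha hy0) hy)
      (dd_mem_Log D (h.dA J a ha) (h.closed a) hy)
  · rw [dd_smul, h0, smul_add, smul_mul_assoc]

omit [LinearOrder Λ] in
theorem bd_zsum {E : Type*} [Ring E] {ι : Type*} (s : Finset ι) (c : ι → ℤ)
    (F : ι → List Λ → E) (l : List Λ) :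
    bd (fun m => ∑ i ∈ s, c i • F i m) l = ∑ i ∈ s, c i • bd (F i) l := by
  induction l generalizing F with
  | nil => simp [bd]
  | cons a l ih =>
    simp only [bd]
    rw [ih fun i m => F i (a :: m), ← Finset.sum_sub_distrib]
    exact Finset.sum_congr rfl fun i _ => (smul_sub _ _ _).symm

/-- the hypercocycle of the decomposition -/
noncomputable def hc (p : ℕ) (D : Fin n → Derivation ℤ L L) (t : Fin n → L) (γ : Λ → Fin n → L) :
    List Λ → Fm n L :=
  altW (fun a v => om (fv p D t (γ a) v)) (fun a b v => fn (KC.hv p (γ a) (γ b) v))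
    (fun k : Fin n => (Pi.single k 1 : Fin n → L))

omit [LinearOrder Λ] [Fact p.Prime] [CharP L p] in
theorem hc_nil : hc p D t γ ([] : List Λ) = 0 := by
  unfold hc altW
  exact Finset.sum_eq_zero fun σ _ => by rw [W_nil, smul_zero]

omit [LinearOrder Λ] [Fact p.Prime] [CharP L p] in
theorem hc_long (l : List Λ) (hl : n + 1 < l.length) : hc p D t γ l = 0 := by
  unfold hc altW
  refine Finset.sum_eq_zero fun σ _ => ?_
  rw [W_long, smul_zero]
  rw [List.length_ofFn]
  exact hl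

omit [LinearOrder Λ] in
theorem dd_hc (hr : Ref p D t Tr) (l : List Λ) :
    dd D (hc p D t γ l) = (-1) ^ n * bd (hc p D t γ) l := by
  unfold hc altW
  rw [bd_zsum, map_sum, Finset.mul_sum]
  refine Finset.sum_congr rfl fun σ _ => ?_
  rw [map_zsmul, mul_smul_comm]
  congr 1
  have h := d_W (dd D).toAddMonoidHom (dd_one D) (fun a v => (om (fv p D t (γ a) v) : Fm n L))
    (fun a b v => (fn (KC.hv p (γ a) (γ b) v) : Fm n L)) ?_ ?_ ?_
    (List.ofFn ((fun k : Fin n => (Pi.single k 1 : Fin n → L)) ∘ σ)) l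
  · rw [List.length_ofFn] at h
    exact h
  · intro a v x
    exact dd_om_mul (closed_fv hr (γ a) v) x
  · intro a b v x
    show dd D (fn (KC.hv p (γ a) (γ b) v) * x) = _
    rw [dd_fn_mul, dd_hv hr]
    rfl
  · intro a b c v
    show (fn (KC.hv p (γ a) (γ b) v) + fn (KC.hv p (γ b) (γ c) v) : Fm n L) =
      fn (KC.hv p (γ a) (γ c) v)
    rw [← fn_add, hv_add_cocycle]

/-- the `p`-th power of a cochain, as a function of lists -/
noncomputable def pc (p : ℕ) (n : ℕ) (c : Finset Λ → L) (l : List Λ) : Fm n L :=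
  fn (c l.toFinset ^ p)

theorem dd_cup (hr : Ref p D t Tr) (c : Finset Λ → L) (i : ℕ) (l : List Λ) :
    dd D (cup i (pc p n c) (hc p D t γ) l) =
      (-1) ^ n * cup i (pc p n c) (bd (hc p D t γ)) l := by
  by_cases hl : i < l.length
  · rw [cup_eq i _ _ l hl, cup_eq i _ _ l hl, pc, dd_fn_mul, dd_fn_pow, zero_mul, zero_add,
      dd_hc hr]
    rcases neg_one_pow_eq_or (Fm n L) n with h | h
    · rw [h, one_mul, one_mul]
    · rw [h, neg_one_mul, neg_one_mul, mul_neg]
  · rw [cup_short i _ _ l (not_lt.1 hl), cup_short i _ _ l (not_lt.1 hl), map_zero, mul_zero]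

/-- the power of a cocycle is a cocycle -/
theorem cup_bd_pc (c : Finset Λ → L) {i : ℕ} (hcd : ∀ J, J.card = i + 2 → cd c J = 0)
    (J : Finset Λ) : cup (i + 1) (bd (pc p n c)) (hc p D t γ) (J.sort (· ≤ ·)) = 0 := by
  by_cases hl : i + 1 < J.card
  · rw [cup_eq _ _ _ _ (by rw [Finset.length_sort]; exact hl), ← sort_take, ← cd_sort]
    have h1 : (fun K : Finset Λ => pc p n c (K.sort (· ≤ ·))) = fun K =>
        (fn (c K ^ p) : Fm n L) := by
      funext K
      rw [pc, Finset.sort_toFinset]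
    have h2 : cd (fun K => (fn (c K ^ p) : Fm n L)) ((J.sort (· ≤ ·)).take (i + 1 + 1)).toFinset =
        fn (cd (fun K => c K ^ p) ((J.sort (· ≤ ·)).take (i + 1 + 1)).toFinset) :=
      cd_map (E := L) (E' := Fm n L)
        { toFun := fn, map_zero' := by rw [fn, TensorProduct.zero_tmul], map_add' := fn_add }
        (fun K => c K ^ p) _
    have h3 : cd (fun K => c K ^ p) ((J.sort (· ≤ ·)).take (i + 1 + 1)).toFinset =
        cd c ((J.sort (· ≤ ·)).take (i + 1 + 1)).toFinset ^ p :=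
      cd_map (frobenius L p).toAddMonoidHom c _
    rw [h1, h2, h3, hcd _ (take_card J (by omega)), zero_pow (Fact.out : p.Prime).ne_zero]
    have h4 : (fn (0 : L) : Fm n L) = 0 := by rw [fn, TensorProduct.zero_tmul]
    rw [h4, zero_mul]
  · rw [cup_short _ _ _ _ (by rw [Finset.length_sort]; exact not_lt.1 hl)]

/-- the hypercocycle lies in the lattices -/
theorem cup_mem (hr : Ref p D t Tr) (h : Chs p D t A β γ κ₀)
    (hκ : ∀ (J : Finset Λ) (a b : Λ), a ∈ J → b ∈ J → ∃ c ∈ A J, κ a = κ b * c)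
    (hν : ∀ a, ∃ c ∈ A {a}, ν a ^ p * κ₀ a = κ a * c) {i : ℕ} {c : Finset Λ → L}
    (hc' : ∀ J, J.card = i + 1 → c J ∈ sh A ν J) (J : Finset Λ) (hJ : i + 1 ≤ J.card) :
    cup i (pc p n c) (hc p D t γ) (J.sort (· ≤ ·)) ∈ Kl A β κ J := by
  obtain ⟨b, hb1, hb2⟩ := exists_mid J (i := i) (by omega)
  have hbJ : b ∈ J := take_sub J _ hb1
  obtain ⟨y₁, hy₁, e₁⟩ := hc' _ (take_card J (k := i + 1) (by omega)) b hb1
  have hne : ((J.sort (· ≤ ·)).drop i).toFinset.Nonempty := ⟨b, hb2⟩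
  have h2 := alt_mem_Kl hr h hne b hb2
  rw [sort_drop] at h2
  obtain ⟨y₂, hy₂, e₂⟩ := h2
  obtain ⟨c₁, hc₁, e₃⟩ := hν b
  have hne1 : ((J.sort (· ≤ ·)).take (i + 1)).toFinset.Nonempty := ⟨b, hb1⟩
  refine Kl_of_one h hκ hbJ (y := fn (c₁ * y₁ ^ p) * y₂) ?_ ?_
  · refine Subring.mul_mem _ (fn_mem_Log ?_) (Log_mono (h.A_mono _ _ hne (drop_sub J _))
      (fun l => om_mem_Log _ _ l) hy₂)
    exact Subring.mul_mem _ (h.A_mono _ _ (Finset.singleton_nonempty b)
      (Finset.singleton_subset_iff.2 hbJ) hc₁)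
      (Subring.pow_mem _ (h.A_mono _ _ hne1 (take_sub J _) hy₁) _)
  · rw [cup_eq _ _ _ _ (by rw [Finset.length_sort]; omega)]
    have e₄ : hc p D t γ ((J.sort (· ≤ ·)).drop i) = κ₀ b • y₂ := e₂
    rw [e₄, pc, e₁, fn_smul, fn_smul, smul_smul, smul_smul, mul_pow]
    congr 1
    linear_combination (y₁ ^ p) * e₃

/-- **the vanishing in positive degrees, in characteristic `p`** -/
theorem coh_van (hn : n < p) (hr : Ref p D t Tr) (h : Chs p D t A β γ κ₀)
    (hκ : ∀ (J : Finset Λ) (a b : Λ), a ∈ J → b ∈ J → ∃ c ∈ A J, κ a = κ b * c)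
    (hdκ : ∀ a, ∃ y ∈ Log (A {a}) (β a), dd D (fn (κ a)) = κ a • y)
    (hν : ∀ a, ∃ c ∈ A {a}, ν a ^ p * κ₀ a = κ a * c)
    (hT : ∀ (J : Finset Λ) (a : Λ), a ∈ J → ∀ c ∈ A J, ∃ y ∈ A J,
      Tr (κ a * (Matrix.of (β a)).det * c) = ν a * y)
    (hvan : KVan (Kl A β κ)) {i : ℕ} (hi : 1 ≤ i) : Van1 (sh A ν) i := by
  classical
  intro c hc' hcd
  have hp : p.Prime := Fact.out
  -- the inverse of `n!`
  obtain ⟨m, hm⟩ : ∃ m : ℤ, (m : L) * (n.factorial : L) = 1 := by
    have hcop : IsCoprime (n.factorial : ℤ) (p : ℤ) := by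
      rw [Nat.isCoprime_iff_coprime]
      exact ((hp.coprime_factorial_of_lt hn)).symm
    obtain ⟨m, m', hmm⟩ := hcop
    refine ⟨m, ?_⟩
    have h1 := congrArg (fun z : ℤ => (z : L)) hmm
    simp only [Int.cast_add, Int.cast_mul, Int.cast_natCast, Int.cast_one, CharP.cast_eq_zero,
      mul_zero, add_zero] at h1
    exact h1
  let Ψ : Finset Λ → Fm n L := fun J => m • cup i (pc p n c) (hc p D t γ) (J.sort (· ≤ ·))
  have hcoc : ∀ J : Finset Λ, dd D (Ψ J) = ((-1 : ℤ) ^ (n + i)) • cd Ψ J := by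
    intro J
    have h1 : cd Ψ J = m • bd (cup i (pc p n c) (hc p D t γ)) (J.sort (· ≤ ·)) := by
      rw [← cd_sort]
      simp only [cd, Ψ, Finset.smul_sum]
      refine Finset.sum_congr rfl (fun a _ => ?_)
      rw [smul_comm]
    have h2 : dd D (Ψ J) = m • ((-1) ^ n *
        cup i (pc p n c) (bd (hc p D t γ)) (J.sort (· ≤ ·))) := by
      simp only [Ψ]
      rw [map_zsmul, dd_cup hr]
    rw [h1, h2, bd_cup _ _ _ hc_nil, cup_bd_pc c hcd, zero_add, smul_comm]
    congr 1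
    rw [zsmul_eq_mul]
    push_cast
    rw [pow_add, mul_assoc]
    congr 1
    rcases neg_one_pow_eq_or (Fm n L) i with h3 | h3
    · rw [h3, one_mul, one_mul]
    · rw [h3, neg_one_mul, neg_one_mul, neg_neg]
  obtain ⟨θ, w, -, hw, hs⟩ := removal (dd D).toAddMonoidHom (fun x => dd_dd D hr.comm x)
    (Kl A β κ) n i hi ((-1) ^ (n + i)) (by rw [← mul_pow]; simp) Ψ
    (fun J x hx => dd_Kl h hdκ hx)
    (fun J hJ => AddSubgroup.zsmul_mem _ (cup_mem hr h hκ hν hc' J hJ) m)
    (fun J _ => hcoc J)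
    (fun J hJ => by
      simp only [Ψ]
      rw [cup_eq _ _ _ _ (by rw [Finset.length_sort]; omega), hc_long, mul_zero, smul_zero]
      rw [List.length_drop, Finset.length_sort]
      omega)
    hvan
  refine ⟨fun J => Tr (top (w J)), fun J hJ a ha => ?_, fun J hJ => ?_⟩
  · obtain ⟨y, hy, e⟩ := hw J hJ a ha
    obtain ⟨c₁, hc₁, e₁⟩ := top_mem_Log hy
    obtain ⟨y', hy', e'⟩ := hT J a ha c₁ hc₁
    refine ⟨y', hy', ?_⟩
    show Tr (top (w J)) = _
    rw [e, map_smul, e₁, smul_eq_mul, ← mul_assoc]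
    exact e'
  · have h1 : cd (fun J => Tr (top (w J))) J = Tr (top (cd w J)) :=
      cd_map (Tr.comp (top : Fm n L →ₗ[L] L).toAddMonoidHom) w J
    have h2 : Tr (top (Ψ J)) = Tr (top (cd w J)) := by
      rw [hs J hJ]
      show Tr (top (dd D (θ J) + cd w J)) = _
      rw [map_add, map_add, tr_top_dd D Tr hr.Tr_D, zero_add]
    rw [h1, ← h2]
    obtain ⟨b, hb1, hb2⟩ := exists_mid J (i := i) (by omega)
    have h3 : (J.sort (· ≤ ·)).drop i = [b] := by
      have h4 : ((J.sort (· ≤ ·)).drop i).length = 1 := by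
        rw [List.length_drop, Finset.length_sort]
        omega
      obtain ⟨b', hb'⟩ := List.length_eq_one_iff.1 h4
      rw [List.mem_toFinset, hb', List.mem_singleton] at hb2
      rw [hb', hb2]
    have h5 : (J.sort (· ≤ ·)).take (i + 1) = J.sort (· ≤ ·) :=
      List.take_of_length_le (by rw [Finset.length_sort]; omega)
    have h6 : Ψ J = c J ^ p •
        (List.ofFn fun k : Fin n => (om (fv p D t (γ b) (Pi.single k 1)) : Fm n L)).prod := by
      simp only [Ψ]
      rw [cup_eq _ _ _ _ (by rw [Finset.length_sort]; omega), h3, h5, pc,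
        Finset.sort_toFinset, fn_smul, smul_comm]
      congr 1
      unfold hc
      rw [altW_vertex _ _ _ b (fun i j => om_mul_om _ _)
        (fun i => om_mul_self _), smul_smul]
      have h3 : ∀ x : Fm n L, (m * (n.factorial : ℤ)) • x = x := by
        intro x
        have h4 : (m * (n.factorial : ℤ)) • x = ((m : L) * (n.factorial : L)) • x := by
          rw [← Int.cast_smul_eq_zsmul L]
          push_cast
          rfl
        rw [h4, hm, one_smul]
      rw [h3]
    rw [h6, map_smul, smul_eq_mul, hr.Tr_mul, tr_fv hr, mul_one]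

end Pool.Agent.Lib.MP_732f67_ag.KV
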