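import Pool.Agent.Lib.MP_732f67_ag.KV.Coh
import Pool.Agent.Lib.MP_732f67_ag.KC.GeoU
import Pool.Agent.Lib.MP_732f67_ag.KC.GeoE
import Pool.Agent.Lib.MP_732f67_ag.KC.GeoL

/-!
# Project KM, part V2: the vanishing in characteristic `p` for the charts
-/

set_option autoImplicit false
set_option linter.unusedSectionVars false

namespace Pool.Agent.Lib.MP_732f67_ag.KV

open Pool.Agent.Lib.MP_732f67_ag.KC hiding removal hv

variable {n N : ℕ} {L : Type*} [Field L] {Λ E : Type} {R2 : Type*} [CommRing R2]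
  [LinearOrder Λ] [Fintype Λ] [Fintype E] {p : ℕ} [Fact p.Prime] [CharP L p] {π : R2 →+* L}
  {zz zi : Fin N → R2} {σ : Λ → Fin N} {xx : Λ → Fin n → R2} {yy uu : Λ → R2}
  {f : Λ → Polynomial (MvPolynomial (Fin n) ℤ)} {ε : Λ → E → Option (Fin n)}
  {D : Fin n → Derivation ℤ L L} {t : Fin n → L} {Tr : L →+ L} {tt : Fin n → R2}
  {m l : ℕ} {g un : Λ → L} {αj : E → ℤ}

/-- the ring of an intersection of charts is a ring of fractions of the ring of one of them -/
theorem AJ_le_Loc {z : Fin N → L} (hz : ∀ j, z j ≠ 0) (σ : Λ → Fin N) {J : Finset Λ} {a : Λ} :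
    AJ z σ J ≤ Loc (AJ z σ {a}) (∏ b ∈ J, z (σ b) / z (σ a)) := by
  refine Subring.closure_le.2 ?_
  rintro _ ⟨j, b, hb, rfl⟩
  have ha1 := Finset.mem_singleton_self a
  have h1 : ∀ i, z i / z (σ a) ∈ Loc (AJ z σ {a}) (∏ b ∈ J, z (σ b) / z (σ a)) := fun i =>
    le_Loc _ _ (div_mem_AJ z σ ha1 i)
  have h2 : (z (σ b) / z (σ a))⁻¹ = (∏ c ∈ J.erase b, z (σ c) / z (σ a)) *
      (∏ c ∈ J, z (σ c) / z (σ a))⁻¹ := by
    have h3 : ∏ c ∈ J, z (σ c) / z (σ a) =
        (z (σ b) / z (σ a)) * ∏ c ∈ J.erase b, z (σ c) / z (σ a) :=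
      (Finset.mul_prod_erase J (fun c => z (σ c) / z (σ a)) hb).symm
    have h4 : ∏ c ∈ J.erase b, z (σ c) / z (σ a) ≠ 0 :=
      Finset.prod_ne_zero_iff.2 fun c _ => div_ne_zero (hz _) (hz _)
    have h5 : z (σ b) / z (σ a) ≠ 0 := div_ne_zero (hz _) (hz _)
    rw [h3]
    generalize ∏ c ∈ J.erase b, z (σ c) / z (σ a) = P at *
    generalize z (σ b) / z (σ a) = q at *
    field_simp
  have h3 : z j / z (σ b) = z j / z (σ a) * (z (σ b) / z (σ a))⁻¹ := by
    have := hz (σ b)
    have := hz (σ a)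
    field_simp
  show z j / z (σ b) ∈ _
  rw [h3, h2]
  exact Subring.mul_mem _ (h1 j) (Subring.mul_mem _ (Subring.prod_mem _ fun c _ => h1 (σ c))
    (inv_mem_Loc _ _))

theorem Loc_le_AJ {z : Fin N → L} (σ : Λ → Fin N) {J : Finset Λ} {a : Λ}
    (ha : a ∈ J) : Loc (AJ z σ {a}) (∏ b ∈ J, z (σ b) / z (σ a)) ≤ AJ z σ J := by
  refine Subring.closure_le.2 ?_
  rintro y (hy | hy)
  · exact AJ_le z σ ha hy
  · rw [Set.mem_singleton_iff.1 hy, ← Finset.prod_inv_distrib]
    refine Subring.prod_mem _ fun b hb => ?_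
    rw [inv_div]
    exact div_mem_AJ z σ hb _

/-- the coordinates of a chart are a `p`-basis on all intersections -/
theorem pba_AJ {z : Fin N → L} {x : Λ → Fin n → L} (hG : Gp p z σ x ε D Tr) {J : Finset Λ} {a : Λ}
    (ha : a ∈ J) : PBA p (AJ z σ J) (x a) := by
  have h1 : PBA p (Loc (AJ z σ {a}) (∏ b ∈ J, z (σ b) / z (σ a))) (x a) :=
    PBA_Loc (hG.pba a) (Subring.prod_mem _ fun b _ => div_mem_AJ z σ (Finset.mem_singleton_self a) _)
      (Finset.prod_ne_zero_iff.2 fun b _ => div_ne_zero (hG.z_ne _) (hG.z_ne _))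
  have h2 : AJ z σ J = Loc (AJ z σ {a}) (∏ b ∈ J, z (σ b) / z (σ a)) :=
    le_antisymm (AJ_le_Loc hG.z_ne σ) (Loc_le_AJ σ ha)
  rw [h2]
  exact h1

/-- the local generator of `K + ⌈N⌉` -/
noncomputable def nu (m : ℕ) (D : Fin n → Derivation ℤ L L) (x : Λ → Fin n → L)
    (ε : Λ → E → Option (Fin n)) (g : Λ → L) (αj : E → ℤ) (a : Λ) : L :=
  jac D x a * (g a)⁻¹ * ∏ j, ep x ε a j ^ (-ceα m αj j)

/-- the charts with the `p`-th powers of the top log forms -/
theorem Geo.chs0 (h : Geo p π zz zi σ xx yy uu f ε) (ht : IsPB p t) (hr : Ref p D t Tr)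
    (htt : ∀ k, π (tt k) = t k) :
    ∃ γ : Λ → Fin n → L, Chs p D t (AJ (fun j => π (zz j)) σ)
      (bet D (fun a l => π (xx a l)) ε) γ
      (fun a => ((Matrix.of (bet D (fun a l => π (xx a l)) ε a)).det⁻¹) ^ p) := by
  obtain ⟨F, δ, hF⟩ := h.frob
  have hdet : ∀ a, (Matrix.of (bet D (fun a l => π (xx a l)) ε a)).det ≠ 0 := fun a => by
    have h1 := h.det_bet D a
    intro h0
    rw [h0, zero_mul] at h1
    exact h.jac_ne ht hr a h1.symm
  refine ⟨fun a k => δ a (tt k), ?_⟩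
  exact
    { A_mono := fun J J' _ hJ => AJ_mono _ _ hJ
      det_ne := hdet
      closed := fun a l => h.closed hr a l
      dA := fun J a ha x hx => h.dA hr ha hx
      chβ := fun J a b ha hb l => h.chβ hr ha hb l
      fβ := fun a l => h.fβ ht hr htt (hF a).2.1 (hF a).2.2.1 l
      hβ := fun J a b ha hb l => h.hβ ht hr htt (hF a).2.1 (hF b).2.1 (hF a).2.2.1 (hF b).2.2.1
        ha hb ((hF b).2.2.2 J hb) l
      chκ := fun J a b ha hb => by
        have h1 : (List.ofFn fun i => (om (bet D (fun a l => π (xx a l)) ε b i) : Fm n L)).prod ∈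
            Log (AJ (fun j => π (zz j)) σ J) (bet D (fun a l => π (xx a l)) ε a) := by
          refine Subring.list_prod_mem _ fun y hy => ?_
          obtain ⟨i, rfl⟩ := (List.mem_ofFn' _ _).1 hy
          exact h.chβ hr hb ha i
        obtain ⟨c, hc, e⟩ := top_mem_Log h1
        rw [top_prod] at e
        refine ⟨c ^ p, Subring.pow_mem _ hc p, ?_⟩
        rw [← mul_pow]
        congr 1
        have ha' := hdet a
        have hb' := hdet b
        have e' : (Matrix.of (bet D (fun a l => π (xx a l)) ε b)).det =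
          (Matrix.of (bet D (fun a l => π (xx a l)) ε a)).det * c := e
        generalize (Matrix.of (bet D (fun a l => π (xx a l)) ε b)).det = db at *
        generalize (Matrix.of (bet D (fun a l => π (xx a l)) ε a)).det = da at *
        rw [e'] at hb' ⊢
        have hc0 : c ≠ 0 := right_ne_zero_of_mul hb'
        field_simp
      dκ := fun a => ⟨0, Subring.zero_mem _, by rw [dd_fn_pow, smul_zero]⟩
      κdet := fun a => ⟨1, Subring.one_mem _, by rw [mul_one]⟩ }

/-- **Kawamata - Viehweg vanishing in characteristic `p`** (all degrees `i ≥ 1`), for `p = m l + 1` -/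
theorem Geo.kv (hn : n < p) (h : Geo p π zz zi σ xx yy uu f ε) (ht : IsPB p t)
    (hr : Ref p D t Tr) (htt : ∀ k, π (tt k) = t k)
    (hP : Pol m (fun j => π (zz j)) σ (fun a l => π (xx a l)) ε g un αj) (hm : p = m * l + 1)
    (hK : KVan (Kl (AJ (fun j => π (zz j)) σ) (bet D (fun a l => π (xx a l)) ε)
      (kap m l (fun j => π (zz j)) σ (fun a l => π (xx a l)) ε g αj)))
    {i : ℕ} (hi : 1 ≤ i) :
    Van1 (sh (AJ (fun j => π (zz j)) σ) (nu m D (fun a l => π (xx a l)) ε g αj)) i := by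
  obtain ⟨γ, hc⟩ := Geo.chs0 h ht hr htt
  have hG := h.gp ht hr htt
  have hx : ∀ a l, (fun a l => π (xx a l)) a l ≠ 0 := h.x_ne
  refine coh_van hn hr hc (fun J a b ha hb => h.chκ hP l ha hb) (fun a => h.dκ hr hP hm a)
    (fun a => ?_) (fun J a ha c hcJ => ?_) hK hi
  · refine h.κdet ht hr hP hm (v := nu m D (fun a l => π (xx a l)) ε g αj a) a ?_
    have h1 : nu m D (fun a l => π (xx a l)) ε g αj a * (jac D (fun a l => π (xx a l)) a)⁻¹ * g a *
        ∏ j, ep (fun a l => π (xx a l)) ε a j ^ ceα m αj j = 1 := by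
      have h2 : (∏ j, ep (fun a l => π (xx a l)) ε a j ^ (-ceα m αj j)) *
          ∏ j, ep (fun a l => π (xx a l)) ε a j ^ ceα m αj j = 1 := by
        rw [← Finset.prod_mul_distrib]
        refine Finset.prod_eq_one fun j _ => ?_
        rw [← zpow_add₀ (ep_ne hx ε a j), neg_add_cancel, zpow_zero]
      have h3 := hG.jac_ne a
      have h4 := hP.g_ne a
      unfold nu
      generalize jac D (fun a l => π (xx a l)) a = u at *
      generalize ∏ j, ep (fun a l => π (xx a l)) ε a j ^ (-ceα m αj j) = P at *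
      generalize ∏ j, ep (fun a l => π (xx a l)) ε a j ^ ceα m αj j = Q at *
      field_simp
      exact h2
    rw [h1]
    exact Subring.one_mem _
  · obtain ⟨D', Tr', hr', hT⟩ := hG.trc a
    have hk : ∀ j, ∃ k : ℕ, (k : ℤ) = l * (m * ceα m αj j - αj j) := by
      intro j
      have h1 := (ceα_spec hP.m_pos αj j).1
      have h2 : 0 ≤ (l : ℤ) * (m * ceα m αj j - αj j) := by
        refine mul_nonneg (Int.natCast_nonneg _) ?_
        linarith
      exact ⟨_, Int.toNat_of_nonneg h2⟩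
    choose k hk using hk
    have hepm : ∀ j, ep (fun a l => π (xx a l)) ε a j ∈ AJ (fun j => π (zz j)) σ J := fun j =>
      AJ_le _ σ ha (hG.ep_mem a j)
    let c' : L := un a ^ l * (∏ j, ep (fun a l => π (xx a l)) ε a j ^ k j) * c
    have hc' : c' ∈ AJ (fun j => π (zz j)) σ J :=
      Subring.mul_mem _ (Subring.mul_mem _ (Subring.pow_mem _ (AJ_le _ σ ha (hP.un_unit a).2.1) _)
        (Subring.prod_mem _ fun j _ => Subring.pow_mem _ (hepm j) _)) hcJ
    refine ⟨Tr' c', (pba_AJ hG ha).tr hr' hc', ?_⟩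
    have hdet := h.det_bet D a
    have h1 : kap m l (fun j => π (zz j)) σ (fun a l => π (xx a l)) ε g αj a *
        (Matrix.of (bet D (fun a l => π (xx a l)) ε a)).det * c =
        ((g a)⁻¹ * ∏ j, ep (fun a l => π (xx a l)) ε a j ^ (-ceα m αj j)) ^ p *
          (jac D (fun a l => π (xx a l)) a * c') := by
      rw [hP.kap_eq (fun j => h.z_ne j) hx hm a, ← hdet]
      have h2 : (∏ j, ep (fun a l => π (xx a l)) ε a j ^ (1 - ceα m αj j - l * αj j)) =
          (∏ j, ep (fun a l => π (xx a l)) ε a j ^ (-ceα m αj j)) ^ p *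
            ((∏ j, ep (fun a l => π (xx a l)) ε a j) *
              ∏ j, ep (fun a l => π (xx a l)) ε a j ^ k j) := by
        rw [← Finset.prod_pow, ← Finset.prod_mul_distrib, ← Finset.prod_mul_distrib]
        refine Finset.prod_congr rfl fun j _ => ?_
        have h0 := ep_ne hx ε a j
        rw [← zpow_natCast (ep _ ε a j) (k j), hk j, ← zpow_natCast (_ ^ (-ceα m αj j)) p,
          ← zpow_mul]
        conv_rhs => rw [← zpow_one (ep (fun a l => π (xx a l)) ε a j)]
        rw [zpow_one, ← zpow_one_add₀ h0, ← zpow_add₀ h0]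
        congr 1
        rw [hm]
        push_cast
        ring
      rw [h2, mul_pow]
      simp only [c']
      ring
    rw [h1, hr.Tr_mul, hT]
    unfold nu
    ring

end Pool.Agent.Lib.MP_732f67_ag.KV
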