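import Pool.Agent.Lib.MP_732f67_ag.KV.Dbl

/-!
# Project KM, part V2: cup products, removal of hypercocycles of positive Cech degree
-/

set_option autoImplicit false

namespace Pool.Agent.Lib.MP_732f67_ag.KV

open Pool.Agent.Lib.MP_732f67_ag.KC (cd cd_cd cd_map cd_congr KVan bd W)
open Pool.Agent.Lib.MP_0b721b_ag (sgn sgn_mul sgn_erase_lt)

section cup

variable {E Λ : Type*} [Ring E]

/-- the cup product of the `i`-cochain `C` with `P` -/
def cup : ℕ → (List Λ → E) → (List Λ → E) → List Λ → E
  | _, _, _, [] => 0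
  | 0, C, P, a :: l => C [a] * P (a :: l)
  | i + 1, C, P, a :: l => cup i (fun m => C (a :: m)) P l

theorem cup_nil (i : ℕ) (C P : List Λ → E) : cup i C P [] = 0 := by
  cases i <;> rfl

theorem cup_zero (C P : List Λ → E) (a : Λ) (l : List Λ) :
    cup 0 C P (a :: l) = C [a] * P (a :: l) := rfl

theorem cup_succ (i : ℕ) (C P : List Λ → E) (a : Λ) (l : List Λ) :
    cup (i + 1) C P (a :: l) = cup i (fun m => C (a :: m)) P l := rfl

theorem cup_short (i : ℕ) (C P : List Λ → E) (l : List Λ) (h : l.length ≤ i) :
    cup i C P l = 0 := by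
  induction i generalizing C l with
  | zero =>
    rw [List.length_eq_zero_iff.1 (Nat.le_zero.1 h)]
    exact cup_nil _ _ _
  | succ i ih =>
    cases l with
    | nil => exact cup_nil _ _ _
    | cons a l => exact ih _ l (by simpa using h)

theorem cup_eq (i : ℕ) (C P : List Λ → E) (l : List Λ) (h : i < l.length) :
    cup i C P l = C (l.take (i + 1)) * P (l.drop i) := by
  induction i generalizing C l with
  | zero =>
    cases l with
    | nil => exact absurd h (by simp)
    | cons a l => rw [cup_zero]; simp
  | succ i ih =>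
    cases l with
    | nil => exact absurd h (by simp)
    | cons a l =>
      rw [cup_succ, ih _ l (by simpa using h)]
      simp

theorem cup_sub (i : ℕ) (C C' P : List Λ → E) (l : List Λ) :
    cup i (fun m => C m - C' m) P l = cup i C P l - cup i C' P l := by
  induction i generalizing C C' l with
  | zero =>
    cases l with
    | nil => rw [cup_nil, cup_nil, cup_nil, sub_zero]
    | cons a l => rw [cup_zero, cup_zero, cup_zero, sub_mul]
  | succ i ih =>
    cases l with
    | nil => rw [cup_nil, cup_nil, cup_nil, sub_zero]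
    | cons a l =>
      rw [cup_succ, cup_succ, cup_succ]
      exact ih _ _ l

theorem bd_sub (F G : List Λ → E) (l : List Λ) : bd (fun m => F m - G m) l = bd F l - bd G l := by
  have h := KC.cup_bd_lin 1 (-1) F G l
  simp only [one_mul, neg_mul, ← sub_eq_add_neg] at h
  exact h

/-- **the Leibniz rule** -/
theorem bd_cup (i : ℕ) (C P : List Λ → E) (hP : P [] = 0) (l : List Λ) :
    bd (cup i C P) l = cup (i + 1) (bd C) P l + (-1) ^ i * cup i C (bd P) l := by
  induction i generalizing C l with
  | zero =>
    cases l with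
    | nil => rw [bd, cup_nil, cup_nil, mul_zero, add_zero]
    | cons a l =>
      have h1 : bd (fun m => cup 0 C P (a :: m)) l = C [a] * bd (fun m => P (a :: m)) l := by
        have h := KC.cup_bd_lin (C [a]) 0 (fun m => P (a :: m)) (fun _ => 0) l
        simp only [zero_mul, add_zero] at h
        exact h
      rw [bd, h1, cup_succ, cup_zero, bd]
      cases l with
      | nil =>
        rw [cup_nil, cup_nil, hP, bd]
        simp
      | cons b l =>
        have h2 : bd C (a :: [b]) = C [b] - C [a] := by
          simp only [bd, sub_zero]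
        rw [cup_zero, cup_zero, h2]
        noncomm_ring
  | succ i ih =>
    cases l with
    | nil => rw [bd, cup_nil, cup_nil, mul_zero, add_zero]
    | cons a l =>
      have h1 : bd (fun m => cup (i + 1) C P (a :: m)) l =
          cup (i + 1) (bd fun m => C (a :: m)) P l +
            (-1) ^ i * cup i (fun m => C (a :: m)) (bd P) l := ih (fun m => C (a :: m)) l
      rw [bd, h1, cup_succ (i + 1), cup_succ i C (bd P)]
      have h2 : cup (i + 1) (fun m => bd C (a :: m)) P l =
          cup (i + 1) C P l - cup (i + 1) (bd fun m => C (a :: m)) P l := by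
        rw [← cup_sub]
        rfl
      rw [h2, pow_succ]
      noncomm_ring

end cup

variable {E Λ : Type*} [LinearOrder Λ]

/-- **removal of the higher components of a hypercocycle**, in positive Cech degree `i` -/
theorem removal [AddCommGroup E] (d : E →+ E) (hd : ∀ x, d (d x) = 0)
    (K : Finset Λ → AddSubgroup E) (n i : ℕ) (hi : 1 ≤ i) (c : ℤ) (hc : c * c = 1)
    (ψ : Finset Λ → E) (hK : ∀ J x, x ∈ K J → d x ∈ K J)
    (hψ : ∀ J, i + 1 ≤ J.card → ψ J ∈ K J) (hcoc : ∀ J, i + 2 ≤ J.card → d (ψ J) = c • cd ψ J)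
    (hlong : ∀ J : Finset Λ, n + i + 1 < J.card → ψ J = 0) (hvan : KVan K) :
    ∃ θ w : Finset Λ → E, (∀ J, J.card = i + 1 → θ J ∈ K J) ∧ (∀ J, J.card = i → w J ∈ K J) ∧
      ∀ J, J.card = i + 1 → ψ J = d (θ J) + cd w J := by
  have key : ∀ k b, b + k = n + i + 1 → i + 1 ≤ b → ∃ θ : Finset Λ → E,
      (∀ J, J.card = b → θ J ∈ K J) ∧
        ∀ J, J.card = b + 1 → cd (fun J => ψ J - d (θ J)) J = 0 := by
    intro k
    induction k with
    | zero =>
      intro b hb hib
      refine ⟨fun _ => 0, fun J _ => (K J).zero_mem, fun J hJ => ?_⟩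
      have h1 : cd (fun J => ψ J - d 0) J = cd ψ J := cd_congr fun L _ => by
        rw [map_zero, sub_zero]
      have h2 : cd ψ J = (c * c) • cd ψ J := by rw [hc, one_smul]
      rw [h1, h2, mul_smul, ← hcoc J (by omega), hlong J (by omega), map_zero, smul_zero]
    | succ k ih =>
      intro b hb hb1
      obtain ⟨θ, hθ, hθ'⟩ := ih (b + 1) (by omega) (by omega)
      obtain ⟨w, hw, hw'⟩ := hvan b (by omega) (fun J => ψ J - d (θ J))
        (fun J hJ => (K J).sub_mem (hψ J (by omega))
          (hK J _ (hθ J hJ))) (fun J hJ => hθ' J (by omega))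
      refine ⟨fun J => c • w J, fun J hJ => (K J).zsmul_mem (hw J hJ) c, fun J hJ => ?_⟩
      have h1 : cd (fun J => ψ J - d (c • w J)) J = cd ψ J - c • d (cd w J) := by
        rw [← cd_map]
        unfold cd
        rw [Finset.smul_sum, ← Finset.sum_sub_distrib]
        refine Finset.sum_congr rfl fun a _ => ?_
        change sgn a J • (ψ (J.erase a) - d (c • w (J.erase a))) =
          sgn a J • ψ (J.erase a) - c • sgn a J • d (w (J.erase a))
        rw [map_zsmul, smul_sub, smul_comm c]
      rw [h1, hw' J hJ, map_sub, hd, sub_zero, hcoc J (by omega), smul_smul, hc, one_smul,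
        sub_self]
  obtain ⟨θ, hθ, hθ'⟩ := key n (i + 1) (by omega) le_rfl
  obtain ⟨w, hw, hw'⟩ := hvan i hi (fun J => ψ J - d (θ J))
    (fun J hJ => (K J).sub_mem (hψ J (by omega)) (hK J _ (hθ J hJ))) (fun J hJ => hθ' J (by omega))
  refine ⟨θ, w, hθ, hw, fun J hJ => ?_⟩
  rw [hw' J hJ]
  abel

end Pool.Agent.Lib.MP_732f67_ag.KV
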