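import Pool.Agent.Lib.MP_732f67_ag.KC.DI

/-!
# Project KM, part V2: a double complex

`F J K`: the sections over the intersection of the charts in `K` of the sheaf `F J`. The vanishing of the
Cech cohomology gives the vanishing of the cohomology of the complex of the global sections of the
sheaves `F J`.
-/

set_option autoImplicit false

namespace Pool.Agent.Lib.MP_732f67_ag.KV

open Pool.Agent.Lib.MP_732f67_ag.KC (cd cd_cd cd_map cd_congr KVan)
open Pool.Agent.Lib.MP_0b721b_ag (sgn sgn_mul sgn_erase_lt)

variable {E Λ : Type*} [AddCommGroup E] [LinearOrder Λ]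

theorem sgn_sq (a : Λ) (J : Finset Λ) : sgn a J * sgn a J = 1 := by
  unfold Pool.Agent.Lib.MP_0b721b_ag.sgn
  rw [← mul_pow]
  simp

/-- the contraction of a cocycle -/
def con (a : Λ) (x : Finset Λ → E) (J : Finset Λ) : E :=
  if a ∈ J then 0 else sgn a (insert a J) • x (insert a J)

theorem cd_con (a : Λ) (x : Finset Λ → E) (J : Finset Λ) (h : a ∉ J → cd x (insert a J) = 0) :
    cd (con a x) J = x J := by
  by_cases ha : a ∈ J
  · unfold cd
    rw [Finset.sum_eq_single a]
    · unfold con
      rw [if_neg (Finset.notMem_erase a J), Finset.insert_erase ha, smul_smul, sgn_sq, one_smul]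
    · intro b hb hba
      unfold con
      rw [if_pos (Finset.mem_erase.2 ⟨Ne.symm hba, ha⟩), smul_zero]
    · exact fun h => absurd ha h
  · have h1 := h ha
    unfold cd at h1
    rw [Finset.sum_insert ha, Finset.erase_insert ha] at h1
    have h2 : x J = -(sgn a (insert a J) • ∑ b ∈ J, sgn b (insert a J) •
        x ((insert a J).erase b)) := by
      have h3 : x J = sgn a (insert a J) • sgn a (insert a J) • x J := by
        rw [smul_smul, sgn_sq, one_smul]
      rw [h3, ← smul_neg]
      congr 1
      exact eq_neg_of_add_eq_zero_left h1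
    rw [h2, Finset.smul_sum, ← Finset.sum_neg_distrib]
    unfold cd
    refine Finset.sum_congr rfl fun b hb => ?_
    have hab : a ≠ b := fun h => ha (h ▸ hb)
    have hbe : a ∉ J.erase b := fun h => ha (Finset.mem_of_mem_erase h)
    have hins : insert a (J.erase b) = (insert a J).erase b := by
      rw [Finset.erase_insert_of_ne hab]
    unfold con
    rw [if_neg hbe, hins, smul_smul, smul_smul, ← neg_smul]
    congr 1
    have h4 := sgn_mul (Finset.mem_insert_self a J) (Finset.mem_insert_of_mem hb) hab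
    rw [Finset.erase_insert ha] at h4
    have h5 := sgn_sq a (insert a J)
    have h6 := sgn_sq a ((insert a J).erase b)
    have h7 := sgn_sq b (insert a J)
    linear_combination (sgn a (insert a J) * sgn a ((insert a J).erase b)) * h4 -
      (sgn b J * sgn a ((insert a J).erase b)) * h5 - (sgn b (insert a J) * sgn a (insert a J)) * h6

theorem cd_sub (x y : Finset Λ → E) (J : Finset Λ) :
    cd (fun J => x J - y J) J = cd x J - cd y J := by
  unfold cd
  rw [← Finset.sum_sub_distrib]
  exact Finset.sum_congr rfl fun a _ => smul_sub _ _ _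

theorem cd_comm (x : Finset Λ → Finset Λ → E) (J K : Finset Λ) :
    cd (fun J => cd (x J) K) J = cd (fun K => cd (fun J => x J K) J) K := by
  unfold cd
  simp only [Finset.smul_sum]
  rw [Finset.sum_comm]
  exact Finset.sum_congr rfl fun a _ => Finset.sum_congr rfl fun b _ => smul_comm _ _ _

theorem cd_zero (J : Finset Λ) : cd (fun _ => (0 : E)) J = 0 := by
  unfold cd
  exact Finset.sum_eq_zero fun a _ => smul_zero _

theorem cd_mem {F : Finset Λ → AddSubgroup E} {y : Finset Λ → E} {J : Finset Λ}
    (hy : ∀ a ∈ J, y (J.erase a) ∈ F J) : cd y J ∈ F J :=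
  AddSubgroup.sum_mem _ fun a ha => AddSubgroup.zsmul_mem _ (hy a ha) _

theorem cd_single (x : Finset Λ → E) (a : Λ) : cd x {a} = x ∅ := by
  unfold cd
  rw [Finset.sum_singleton]
  have h1 : sgn a ({a} : Finset Λ) = 1 := by
    unfold Pool.Agent.Lib.MP_0b721b_ag.sgn
    rw [Finset.filter_eq_empty_iff.2, Finset.card_empty, pow_zero]
    intro y hy
    rw [Finset.mem_singleton.1 hy]
    exact lt_irrefl a
  rw [h1, one_smul]
  congr 1
  exact Finset.erase_singleton a

theorem cd_pair (x : Finset Λ → E) {a b : Λ} (hab : a < b) :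
    cd x {a, b} = x {b} - x {a} := by
  unfold cd
  rw [Finset.sum_pair hab.ne]
  have ha : ({a, b} : Finset Λ).erase a = {b} := by
    rw [Finset.erase_insert]
    simpa using hab.ne
  have hb : ({a, b} : Finset Λ).erase b = {a} := by
    ext x
    simp only [Finset.mem_erase, Finset.mem_insert, Finset.mem_singleton]
    constructor
    · rintro ⟨h1, h2⟩
      tauto
    · rintro rfl
      exact ⟨hab.ne, Or.inl rfl⟩
  have hs1 : ∀ x : Λ, sgn x ({x} : Finset Λ) = 1 := by
    intro x
    unfold Pool.Agent.Lib.MP_0b721b_ag.sgn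
    rw [Finset.filter_eq_empty_iff.2, Finset.card_empty, pow_zero]
    intro y hy
    rw [Finset.mem_singleton.1 hy]
    exact lt_irrefl x
  have hsb : sgn b ({a, b} : Finset Λ) = - sgn b ({b} : Finset Λ) := by
    rw [sgn_erase_lt (Finset.mem_insert_self a {b}) hab, ha]
  have hsa : sgn a ({a, b} : Finset Λ) = 1 := by
    rw [Pool.Agent.Lib.MP_0b721b_ag.sgn_erase_gt hab, hb, hs1]
  rw [hsa, hsb, hs1, ha, hb, one_smul, neg_smul, one_smul, sub_eq_add_neg]

/-- the vanishing in one degree -/
def Van1 (K : Finset Λ → AddSubgroup E) (b : ℕ) : Prop :=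
  ∀ z : Finset Λ → E, (∀ J, J.card = b + 1 → z J ∈ K J) →
    (∀ J, J.card = b + 2 → cd z J = 0) →
    ∃ w : Finset Λ → E, (∀ J, J.card = b → w J ∈ K J) ∧ ∀ J, J.card = b + 1 → cd w J = z J

theorem zig [Nonempty Λ] {F : Finset Λ → Finset Λ → AddSubgroup E}
    (hins : ∀ J K a, a ∈ K → F (insert a J) K ≤ F J K)
    (hJ : ∀ J J' K, K.Nonempty → J ⊆ J' → F J K ≤ F J' K)
    (hK : ∀ J K K', K.Nonempty → K ⊆ K' → F J K ≤ F J K')
    {I : ℕ} (h0 : Van1 (F ∅) I) (hrow : ∀ J : Finset Λ, J.Nonempty → ∀ b, 1 ≤ b → Van1 (F J) b) :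
    ∀ (i q : ℕ), i + q = I → ∀ x : Finset Λ → Finset Λ → E,
      (∀ J K, J.card = i + 1 → K.card = q + 1 → x J K ∈ F J K) →
      (∀ J K, J.card = i + 2 → K.card = q + 1 → cd (fun J => x J K) J = 0) →
      (∀ J K, J.card = i + 1 → K.card = q + 2 → cd (x J) K = 0) →
      ∃ y : Finset Λ → Finset Λ → E, (∀ J K, J.card = i → K.card = q + 1 → y J K ∈ F J K) ∧
        (∀ J K, J.card = i + 1 → K.card = q + 1 → cd (fun J => y J K) J = x J K) ∧
        (∀ J K, J.card = i → K.card = q + 2 → cd (y J) K = 0) := by
  classical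
  obtain ⟨a₀⟩ := (inferInstance : Nonempty Λ)
  have hch : ∀ K : Finset Λ, ∃ a, K.Nonempty → a ∈ K := fun K => by
    by_cases h : K.Nonempty
    · obtain ⟨a, ha⟩ := h
      exact ⟨a, fun _ => ha⟩
    · exact ⟨a₀, fun h' => absurd h' h⟩
  choose v hv using hch
  intro i
  induction i with
  | zero =>
    intro q _ x hx hxJ hxK
    refine ⟨fun J K => con (v K) (fun J => x J K) J, fun J K hJc hKc => ?_, fun J K hJc hKc => ?_,
      fun J K hJc hKc => ?_⟩
    · have hne : K.Nonempty := by rw [← Finset.card_pos]; omega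
      have hvK := hv K hne
      show con (v K) (fun J => x J K) J ∈ F J K
      unfold con
      split_ifs with h
      · exact AddSubgroup.zero_mem _
      · refine AddSubgroup.zsmul_mem _ (hins J K _ hvK (hx _ K ?_ hKc)) _
        rw [Finset.card_insert_of_notMem h, hJc]
    · exact cd_con _ _ _ fun h => hxJ _ K (by rw [Finset.card_insert_of_notMem h, hJc]) hKc
    · rw [Finset.card_eq_zero.1 hJc]
      have h1 : cd (fun J => cd (fun K => con (v K) (fun J => x J K) J) K) {a₀} = 0 := by
        rw [cd_comm]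
        have h2 : cd (fun K => cd (fun J => con (v K) (fun J => x J K) J) {a₀}) K =
            cd (x {a₀}) K := cd_congr fun K' hK' => by
          refine cd_con _ _ _ fun h => hxJ _ K' ?_ (by omega)
          rw [Finset.card_insert_of_notMem h, Finset.card_singleton]
        rw [h2]
        exact hxK _ K (Finset.card_singleton _) hKc
      rw [cd_single] at h1
      exact h1
  | succ i ih =>
    intro q hI x hx hxJ hxK
    let y₀ : Finset Λ → Finset Λ → E := fun J K => con (v K) (fun J => x J K) J
    have hA : ∀ J K, J.card = i + 1 → K.card = q + 1 → y₀ J K ∈ F J K := by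
      intro J K hJc hKc
      have hne : K.Nonempty := by rw [← Finset.card_pos]; omega
      have hvK := hv K hne
      show con (v K) (fun J => x J K) J ∈ F J K
      unfold con
      split_ifs with h
      · exact AddSubgroup.zero_mem _
      · refine AddSubgroup.zsmul_mem _ (hins J K _ hvK (hx _ K ?_ hKc)) _
        rw [Finset.card_insert_of_notMem h, hJc]
    have hB : ∀ J K, J.card = i + 2 → K.card = q + 1 → cd (fun J => y₀ J K) J = x J K :=
      fun J K hJc hKc => cd_con _ _ _ fun h =>
        hxJ _ K (by rw [Finset.card_insert_of_notMem h, hJc]) hKc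
    obtain ⟨y', h1, h2, h3⟩ := ih (q + 1) (by omega) (fun J K => cd (y₀ J) K)
      (fun J K hJc hKc => cd_mem (F := F J) fun a ha =>
        hK J _ K (by
          rw [← Finset.card_pos, Finset.card_erase_of_mem ha]
          omega) (Finset.erase_subset a K)
          (hA J _ hJc (by rw [Finset.card_erase_of_mem ha]; omega)))
      (fun J K hJc hKc => by
        rw [cd_comm]
        have h2 : cd (fun K => cd (fun J => y₀ J K) J) K = cd (x J) K :=
          cd_congr fun K' hK' => hB J K' hJc (by omega)
        rw [h2]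
        exact hxK J K hJc (by omega))
      (fun J K _ _ => cd_cd _ _)
    have h4 : ∀ J : Finset Λ, ∃ u : Finset Λ → E, J.card = i →
        (∀ K, K.card = q + 1 → u K ∈ F J K) ∧ ∀ K, K.card = q + 2 → cd u K = y' J K := by
      intro J
      by_cases hJc : J.card = i
      · have hvan : Van1 (F J) (q + 1) := by
          by_cases hJe : J.Nonempty
          · exact hrow J hJe (q + 1) (by omega)
          · rw [Finset.not_nonempty_iff_eq_empty] at hJe
            subst hJe
            rw [Finset.card_empty] at hJc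
            have h5 : q + 1 = I := by omega
            rw [h5]
            exact h0
        obtain ⟨u, hu, hu'⟩ := hvan (y' J) (fun K hKc => h1 J K hJc hKc)
          (fun K hKc => h3 J K hJc hKc)
        exact ⟨u, fun _ => ⟨hu, hu'⟩⟩
      · exact ⟨0, fun h => absurd h hJc⟩
    choose u hu using h4
    refine ⟨fun J K => y₀ J K - cd (fun J => u J K) J, fun J K hJc hKc => ?_,
      fun J K hJc hKc => ?_, fun J K hJc hKc => ?_⟩
    · have hne : K.Nonempty := by rw [← Finset.card_pos]; omega
      refine AddSubgroup.sub_mem _ (hA J K hJc hKc) ?_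
      refine cd_mem (F := fun J => F J K) fun a ha => ?_
      exact hJ _ J K hne (Finset.erase_subset a J)
        ((hu _ (by rw [Finset.card_erase_of_mem ha]; omega)).1 K hKc)
    · have h5 := cd_sub (fun J => y₀ J K) (cd fun J => u J K) J
      rw [cd_cd, sub_zero, hB J K hJc hKc] at h5
      exact h5
    · have h5 := cd_sub (y₀ J) (fun K => cd (fun J => u J K) J) K
      rw [← cd_comm] at h5
      have h6 : cd (fun J => cd (u J) K) J = cd (fun J => y' J K) J := cd_congr fun J' hJ' =>
        (hu J' (by omega)).2 K hKc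
      rw [h6, h2 J K hJc (by omega), sub_self] at h5
      exact h5

/-- **the complex of the global sections** -/
theorem dbl [Nonempty Λ] {F : Finset Λ → Finset Λ → AddSubgroup E}
    (hins : ∀ J K a, a ∈ K → F (insert a J) K ≤ F J K)
    (hJ : ∀ J J' K, K.Nonempty → J ⊆ J' → F J K ≤ F J' K)
    (hK : ∀ J K K', K.Nonempty → K ⊆ K' → F J K ≤ F J K')
    {I : ℕ} (h0 : Van1 (F ∅) I) (hrow : ∀ J : Finset Λ, J.Nonempty → ∀ b, 1 ≤ b → Van1 (F J) b)
    (x : Finset Λ → E) (hx : ∀ J, J.card = I + 1 → ∀ a, x J ∈ F J {a})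
    (hcd : ∀ J, J.card = I + 2 → cd x J = 0) :
    ∃ y : Finset Λ → E, (∀ J, J.card = I → ∀ a, y J ∈ F J {a}) ∧
      ∀ J, J.card = I + 1 → cd y J = x J := by
  obtain ⟨a₀⟩ := (inferInstance : Nonempty Λ)
  obtain ⟨y, h1, h2, h3⟩ := zig hins hJ hK h0 hrow I 0 (by omega) (fun J _ => x J)
    (fun J K hJc hKc => by
      obtain ⟨a, rfl⟩ := Finset.card_eq_one.1 (by simpa using hKc)
      exact hx J hJc a)
    (fun J K hJc _ => hcd J hJc)
    (fun J K _ hKc => by
      obtain ⟨a, b, hab, rfl⟩ := Finset.card_eq_two.1 (by simpa using hKc)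
      rcases lt_or_gt_of_ne hab with h | h
      · rw [cd_pair _ h, sub_self]
      · rw [Finset.pair_comm, cd_pair _ h, sub_self])
  have heq : ∀ J, J.card = I → ∀ a, y J {a} = y J {a₀} := by
    intro J hJc a
    rcases lt_trichotomy a a₀ with h | h | h
    · have h4 := h3 J {a, a₀} hJc (by rw [Finset.card_pair h.ne])
      rw [cd_pair _ h, sub_eq_zero] at h4
      exact h4.symm
    · rw [h]
    · have h4 := h3 J {a₀, a} hJc (by rw [Finset.card_pair h.ne])
      rw [cd_pair _ h, sub_eq_zero] at h4
      exact h4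
  refine ⟨fun J => y J {a₀}, fun J hJc a => ?_, fun J hJc => ?_⟩
  · show y J {a₀} ∈ F J {a}
    rw [← heq J hJc a]
    exact h1 J {a} hJc (Finset.card_singleton a)
  · exact h2 J {a₀} hJc (Finset.card_singleton a₀)

end Pool.Agent.Lib.MP_732f67_ag.KV
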