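import Pool.Agent.Lib.MP_732f67_ag.KV.ExB

/-!
# Project KM, part V2: Kawamata-Viehweg vanishing on a smooth projective variety (`VX1`)
-/

set_option autoImplicit false

namespace Pool.Agent.KM

open Pool.Agent.Lib.MP_732f67_ag.V (AR KVan_equiv)
open Pool.Agent.Lib.MP_732f67_ag.KC (KVan ceα)
open Pool.Agent.Lib.MP_732f67_ag.KV (Dt nuC nuC_ne shC kvC)

variable {F : Type} [Field F] [Algebra ℂ F] {d : ℕ} {J : Type}

/-- the rounding up -/
theorem ceα_eq {m k : ℕ} (hm : 1 ≤ m) (hk : 1 ≤ k) {e : J → ℤ} {b : J → ℚ} {j : J}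
    (h : (e j : ℚ) = m * (b j - 1)) : ceα (m * k) (fun j => e j * k) j = ⌈b j⌉ - 1 := by
  have hm' : (m : ℚ) ≠ 0 := by
    have : m ≠ 0 := by omega
    exact_mod_cast this
  have hk' : (k : ℚ) ≠ 0 := by
    have : k ≠ 0 := by omega
    exact_mod_cast this
  unfold ceα
  have h1 : ((-(e j * k) : ℤ) : ℚ) / ((m * k : ℕ) : ℚ) = -(b j - 1) := by
    push_cast
    rw [h]
    field_simp
  have h2 : -(e j * (k : ℤ)) / ((m * k : ℕ) : ℤ) = ⌊-(b j - 1)⌋ := by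
    rw [← h1, Rat.floor_intCast_div_natCast]
  rw [h2, Int.floor_neg, neg_neg, Int.ceil_sub_one]

namespace Px

variable {Y : Set (Subalgebra ℂ F)} {B : J → Subalgebra ℂ F → Fˣ}
  {Δ : Fin d → Derivation ℂ F F} {κ D : Subalgebra ℂ F → Fˣ}
  {N : Subalgebra ℂ F → Finset F} {DD : Subalgebra ℂ F → Fˣ} (X : Px d Y B Δ κ D N DD)

/-- the charts are a fine cover -/
theorem isCov : Cov Y DD (fun a => X.z (X.σ a)) N := by
  refine ⟨fun c => ⟨X.z_ne _, X.va.sec (X.z_mem _)⟩, fun O hO => ?_, fun c => ?_⟩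
  · obtain ⟨a, ha⟩ := X.exists_le hO
    exact ⟨a, (X.un_iff a hO).2 ha⟩
  · obtain ⟨O, hO, h⟩ := (X.nx c).fine
    exact ⟨O, hO, fun O' hO' hu s hs => (X.un_iff c hO').1 hu (h s hs)⟩

/-- the data of the charts -/
noncomputable def toDt (t : Fin d → F) (y0 : F) (dd : Fin d → Derivation ℂ F F) (c : F) (m : ℕ)
    (b : J → ℤ) : Dt F d J where
  t := t
  y0 := y0
  D := dd
  N := X.M
  z := fun i => c * X.z i
  k := X.k
  σ := X.σ
  x := X.x
  y := X.y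
  u := X.u
  co := X.co
  g := fun a => X.δ a * (Matrix.of fun i l => dd i (X.x a l)).det
  m := m
  b := b

variable {t : Fin d → F} {y0 : F} {dd : Fin d → Derivation ℂ F F} {c : F} {m : ℕ} {b : J → ℤ}

theorem toDt_A (hc : c ≠ 0) (a : Fin X.k) : (X.toDt t y0 dd c m b).A a = X.A a :=
  chA_mul X.z hc (X.σ a)

theorem toDt_AR (hc : c ≠ 0) (I : Finset (Fin X.k)) :
    AR ℂ (X.toDt t y0 dd c m b).z (X.toDt t y0 dd c m b).σ I = AR ℂ X.z X.σ I := by
  show AR ℂ (fun i => c * X.z i) X.σ I = AR ℂ X.z X.σ I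
  unfold AR
  simp only [mul_div_mul_left _ _ hc]

theorem eps_ne (a : Fin X.k) (j : J) : eps (X.x a) (X.co a j) ≠ 0 := by
  unfold eps
  cases X.co a j with
  | none => exact one_ne_zero
  | some l => exact (X.nx a).ch.tb.1.ne_zero l

variable (hp : IsTranscendenceBasis ℂ t) (hdd : ∀ i j, dd i (t j) = if i = j then 1 else 0)

include hp hdd

theorem nj_eq (x : Fin d → F) : nj Δ x = (Matrix.of fun i l => Δ i (t l)).det *
    (Matrix.of fun i l => dd i (x l)).det := det_frame hp hdd x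

theorem toDt_ok [Fintype J] (hY : Snc d Y B Δ κ) (hprim : Prim t y0) {m : ℕ} (hm : 0 < m)
    {b : J → ℤ} (hDD : ∀ Q ∈ Y, (DD Q : F) = (D Q : F) ^ m * (∏ j, (B j Q : F) ^ b j) /
      (κ Q : F) ^ m) :
    (X.toDt t y0 dd ((Matrix.of fun i l => Δ i (t l)).det ^ m) m b).Ok := by
  classical
  set δ₀ : F := (Matrix.of fun i l => Δ i (t l)).det with hδ₀
  have hδ0 : δ₀ ≠ 0 := frame_det_ne hp hY.frame
  have hc : δ₀ ^ m ≠ 0 := pow_ne_zero _ hδ0
  have hjac : ∀ a, (Matrix.of fun i l => dd i (X.x a l)).det ≠ 0 := by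
    intro a h0
    obtain ⟨Q, hQ, hle⟩ := X.exists_pt a
    have h1 := ((X.nx a).can Q hQ hle).1
    rw [nj_eq hp hdd, h0, mul_zero, mul_zero] at h1
    exact h1 rfl
  refine
    { prim := hprim
      Dt := hdd
      z_ne := fun j => mul_ne_zero hc (X.z_ne j)
      cov := ?_
      ch := ?_
      co_inj := fun a j j' l => (X.nx a).inj j j' l
      ε_trans := ?_
      g_ne := fun a => mul_ne_zero (X.nx a).d_ne (hjac a)
      g_trans := ?_
      m_pos := hm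
      pol := ?_ }
  · obtain ⟨M', hM'⟩ := X.cov
    exact ⟨M', fun j => cov_mul X.z X.σ _ (hM' j)⟩
  · intro a
    rw [X.toDt_A hc]
    exact (X.nx a).ch
  · intro a b' j
    rw [X.toDt_A hc, X.toDt_A hc]
    refine X.mem_sup hY.proj a b' fun Q hQ ha hb => ?_
    have h1 := (X.nx a).eqn j Q hQ ha
    have h2 := (X.nx b').eqn j Q hQ hb
    have h3 := h2.div h1
    have h4 : (B j Q : F) / eps (X.x b') (X.co b' j) / ((B j Q : F) / eps (X.x a) (X.co a j)) =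
        eps (X.x a) (X.co a j) / eps (X.x b') (X.co b' j) := by
      rw [div_div_div_cancel_left' _ _ (B j Q).ne_zero]
    rw [h4] at h3
    exact h3.2.1
  · intro a b'
    rw [X.toDt_A hc, X.toDt_A hc]
    refine X.mem_sup hY.proj a b' fun Q hQ ha hb => ?_
    have h1 := ((X.nx b').d_eq Q hQ hb).div ((X.nx a).d_eq Q hQ ha)
    have h2 := ((X.nx a).can Q hQ ha).div ((X.nx b').can Q hQ hb)
    have h3 := h1.mul h2
    rw [nj_eq hp hdd, nj_eq hp hdd] at h3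
    have h4 : (D Q : F) / X.δ b' / ((D Q : F) / X.δ a) *
        ((κ Q : F) * ((Matrix.of fun i l => Δ i (t l)).det *
          (Matrix.of fun i l => dd i (X.x a l)).det) /
        ((κ Q : F) * ((Matrix.of fun i l => Δ i (t l)).det *
          (Matrix.of fun i l => dd i (X.x b' l)).det))) =
        X.δ a * (Matrix.of fun i l => dd i (X.x a l)).det /
          (X.δ b' * (Matrix.of fun i l => dd i (X.x b' l)).det) := by
      have e1 := (D Q).ne_zero
      have e2 := (κ Q).ne_zero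
      have e3 := (X.nx a).d_ne
      have e4 := (X.nx b').d_ne
      have e5 := hjac b'
      rw [← hδ₀]
      field_simp
    rw [h4] at h3
    exact h3.2.1
  · intro a
    rw [X.toDt_A hc]
    refine X.un_of_pt a fun Q hQ ha => ?_
    have h1 := (X.un_iff a hQ).2 ha
    have h2 := (X.nx a).d_eq Q hQ ha
    have h3 := (X.nx a).can Q hQ ha
    have h4 : Un Q (∏ j, ((B j Q : F) / eps (X.x a) (X.co a j)) ^ b j) :=
      Un.prod _ fun j _ => Un.zpow ((X.nx a).eqn j Q hQ ha) _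
    rw [nj_eq hp hdd, ← hδ₀] at h3
    have h5 := ((h1.mul (h2.pow m).inv).mul h4.inv).mul (h3.pow m)
    have h6 : ∏ j, ((B j Q : F) / eps (X.x a) (X.co a j)) ^ b j =
        (∏ j, (B j Q : F) ^ b j) / ∏ j, eps (X.x a) (X.co a j) ^ b j := by
      rw [← Finset.prod_div_distrib]
      exact Finset.prod_congr rfl fun j _ => div_zpow _ _ _
    have h7 : X.z (X.σ a) * (DD Q : F) * (((D Q : F) / X.δ a) ^ m)⁻¹ *
        (∏ j, ((B j Q : F) / eps (X.x a) (X.co a j)) ^ b j)⁻¹ *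
        ((κ Q : F) * (δ₀ * (Matrix.of fun i l => dd i (X.x a l)).det)) ^ m =
        δ₀ ^ m * X.z (X.σ a) * (X.δ a * (Matrix.of fun i l => dd i (X.x a l)).det) ^ m *
          ∏ j, eps (X.x a) (X.co a j) ^ b j := by
      rw [h6, hDD Q hQ, mul_pow, mul_pow, mul_pow, div_pow]
      have e1 := (D Q).ne_zero
      have e2 := (κ Q).ne_zero
      have e3 := (X.nx a).d_ne
      have e5 := hjac a
      have e6 : (∏ j, (B j Q : F) ^ b j) ≠ 0 :=
        Finset.prod_ne_zero_iff.2 fun j _ => zpow_ne_zero _ (B j Q).ne_zero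
      have e7 : (∏ j, eps (X.x a) (X.co a j) ^ b j) ≠ 0 :=
        Finset.prod_ne_zero_iff.2 fun j _ => zpow_ne_zero _ (X.eps_ne a j)
      field_simp
    rw [h7] at h5
    exact h5

omit hp hdd in
/-- comparison of the lattices -/
theorem nu_un [Fintype J] (a : Fin X.k) (hjac : (Matrix.of fun i l => dd i (X.x a l)).det ≠ 0)
    {c : F} {m : ℕ} {b f : J → ℤ} (hb : ∀ j, ceα m b j = f j) {Q : Subalgebra ℂ F} (hQ : Q ∈ Y)
    (ha : X.A a ≤ Q) :
    Un Q (nuC (X.toDt t y0 dd c m b) a * ((D Q : F) * ∏ j, (B j Q : F) ^ f j)) := by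
  have h1 := (X.nx a).d_eq Q hQ ha
  have h2 : Un Q (∏ j, ((B j Q : F) / eps (X.x a) (X.co a j)) ^ f j) :=
    Un.prod _ fun j _ => Un.zpow ((X.nx a).eqn j Q hQ ha) _
  have h3 := h1.mul h2
  have h4 : nuC (X.toDt t y0 dd c m b) a * ((D Q : F) * ∏ j, (B j Q : F) ^ f j) =
      (D Q : F) / X.δ a * ∏ j, ((B j Q : F) / eps (X.x a) (X.co a j)) ^ f j := by
    show (Matrix.of fun i l => dd i (X.x a l)).det *
      (X.δ a * (Matrix.of fun i l => dd i (X.x a l)).det)⁻¹ *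
      (∏ j, eps (X.x a) (X.co a j) ^ (-ceα m b j)) *
      ((D Q : F) * ∏ j, (B j Q : F) ^ f j) = _
    have h6 : ∏ j, ((B j Q : F) / eps (X.x a) (X.co a j)) ^ f j =
        (∏ j, (B j Q : F) ^ f j) / ∏ j, eps (X.x a) (X.co a j) ^ f j := by
      rw [← Finset.prod_div_distrib]
      exact Finset.prod_congr rfl fun j _ => div_zpow _ _ _
    have h7 : ∏ j, eps (X.x a) (X.co a j) ^ (-ceα m b j) =
        (∏ j, eps (X.x a) (X.co a j) ^ f j)⁻¹ := by
      rw [← Finset.prod_inv_distrib]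
      exact Finset.prod_congr rfl fun j _ => by rw [hb, zpow_neg]
    rw [h6, h7]
    have e3 := (X.nx a).d_ne
    have e7 : (∏ j, eps (X.x a) (X.co a j) ^ f j) ≠ 0 :=
      Finset.prod_ne_zero_iff.2 fun j _ => zpow_ne_zero _ (X.eps_ne a j)
    field_simp
  rw [h4]
  exact h3

end Px

/-- **Kawamata-Viehweg vanishing** -/
theorem vx1 : VX1 := by
  intro d F _ _ J _ Y B Δ κ hY D b hD hQ
  classical
  obtain ⟨m, hm, e, he, m₁, hm₁, V, hV⟩ := hQ
  refine ⟨D ^ m * (∏ j, B j ^ e j) / κ ^ m, car_div (car_mul (car_pow hD m)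
    (car_prod _ fun j _ => car_zpow (hY.car j) _)) (car_pow hY.kcar m), ⟨m₁, hm₁, V, hV⟩,
    fun N hN => ?_⟩
  obtain ⟨d₀, hd₀, hX⟩ := exists_px hY hD hN hV
  rw [← pow_mul] at hX
  obtain ⟨X⟩ := hX
  have hk : 1 ≤ m₁ * d₀ := Nat.mul_pos hm₁ hd₀
  refine ⟨m₁ * d₀, X.k, fun a => X.z (X.σ a), hk, X.isCov, ?_⟩
  obtain ⟨t, y0, hp⟩ := exists_prim_of_proj hY.proj hY.dim
  obtain ⟨dd, hdd⟩ := exists_der hp.basis
  have hDD : ∀ Q ∈ Y, (((D ^ m * (∏ j, B j ^ e j) / κ ^ m) ^ (m₁ * d₀) :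
      Subalgebra ℂ F → Fˣ) Q : F) =
      (D Q : F) ^ (m * (m₁ * d₀)) * (∏ j, (B j Q : F) ^ (e j * ((m₁ * d₀ : ℕ) : ℤ))) /
        (κ Q : F) ^ (m * (m₁ * d₀)) := by
    intro Q _
    simp only [Pi.pow_apply, Pi.div_apply, Pi.mul_apply, Finset.prod_apply,
      Units.val_pow_eq_pow_val, Units.val_div_eq_div_val, Units.val_mul, Units.coe_prod,
      Units.val_zpow_eq_zpow_val]
    rw [div_pow, mul_pow, ← pow_mul, ← pow_mul, ← Finset.prod_pow]
    congr 2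
    exact Finset.prod_congr rfl fun j _ => by rw [zpow_mul, zpow_natCast]
  have hok := X.toDt_ok hp.basis hdd hY hp (Nat.mul_pos hm hk) hDD
  have hkv := kvC hok
  set δ₀ : F := (Matrix.of fun i l => Δ i (t l)).det with hδ₀
  have hc : δ₀ ^ (m * (m₁ * d₀)) ≠ 0 := pow_ne_zero _ (frame_det_ne hp.basis hY.frame)
  have hjac : ∀ a, (Matrix.of fun i l => dd i (X.x a l)).det ≠ 0 := by
    intro a h0
    obtain ⟨Q, hQ, hle⟩ := X.exists_pt a
    have h1 := ((X.nx a).can Q hQ hle).1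
    rw [Px.nj_eq hp.basis hdd, h0, mul_zero, mul_zero] at h1
    exact h1 rfl
  have hE : ∀ Q : Subalgebra ℂ F, ((D * ∏ j, B j ^ (⌈b j⌉ - 1) : Subalgebra ℂ F → Fˣ) Q : F) =
      (D Q : F) * ∏ j, (B j Q : F) ^ (⌈b j⌉ - 1) := by
    intro Q
    simp only [Pi.mul_apply, Finset.prod_apply, Pi.pow_apply, Units.val_mul, Units.coe_prod,
      Units.val_zpow_eq_zpow_val]
  have hnu := fun (a : Fin X.k) (Q : Subalgebra ℂ F) (hQ : Q ∈ Y) (ha : X.A a ≤ Q) =>
    X.nu_un (t := t) (y0 := y0) a (hjac a) (c := δ₀ ^ (m * (m₁ * d₀)))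
      (fun j => ceα_eq (b := b) hm hk (he j)) hQ ha
  refine KVan_equiv (AddEquiv.refl F) (fun I hI f => ?_) hkv
  show (∀ O ∈ Y, (∀ c ∈ I, Un O (X.z (X.σ c) *
      (((D ^ m * (∏ j, B j ^ e j) / κ ^ m) ^ (m₁ * d₀) : Subalgebra ℂ F → Fˣ) O : F))) →
      f * ((D * ∏ j, B j ^ (⌈b j⌉ - 1) : Subalgebra ℂ F → Fˣ) O : F) ∈ O) ↔
    ∀ a ∈ I, f / nuC (X.toDt t y0 dd (δ₀ ^ (m * (m₁ * d₀))) (m * (m₁ * d₀))
      fun j => e j * ((m₁ * d₀ : ℕ) : ℤ)) a ∈ AR ℂ
      (X.toDt t y0 dd (δ₀ ^ (m * (m₁ * d₀))) (m * (m₁ * d₀))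
        fun j => e j * ((m₁ * d₀ : ℕ) : ℤ)).z X.σ I
  have hAR := X.toDt_AR (t := t) (y0 := y0) (dd := dd) (m := m * (m₁ * d₀))
    (b := fun j => e j * ((m₁ * d₀ : ℕ) : ℤ)) hc I
  have hun : ∀ O ∈ Y, (∀ c ∈ I, Un O (X.z (X.σ c) *
      (((D ^ m * (∏ j, B j ^ e j) / κ ^ m) ^ (m₁ * d₀) : Subalgebra ℂ F → Fˣ) O : F))) ↔
      ∀ c ∈ I, X.A c ≤ O := by
    intro O hO
    exact forall_congr' fun c => forall_congr' fun _ => X.un_iff c hO
  constructor
  · intro h a ha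
    have h1 : f / nuC (X.toDt t y0 dd (δ₀ ^ (m * (m₁ * d₀))) (m * (m₁ * d₀))
        fun j => e j * ((m₁ * d₀ : ℕ) : ℤ)) a ∈ AR ℂ X.z X.σ I := by
      refine X.mem_AR hY.proj hI fun Q hQ hle => ?_
      have h2 := h Q hQ ((hun Q hQ).2 hle)
      have h3 := hnu a Q hQ (hle a ha)
      rw [hE] at h2
      have h4 := Q.mul_mem h2 h3.2.2
      have h5 : f * ((D Q : F) * ∏ j, (B j Q : F) ^ (⌈b j⌉ - 1)) *
          (nuC (X.toDt t y0 dd (δ₀ ^ (m * (m₁ * d₀))) (m * (m₁ * d₀))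
            fun j => e j * ((m₁ * d₀ : ℕ) : ℤ)) a *
            ((D Q : F) * ∏ j, (B j Q : F) ^ (⌈b j⌉ - 1)))⁻¹ =
          f / nuC (X.toDt t y0 dd (δ₀ ^ (m * (m₁ * d₀))) (m * (m₁ * d₀))
            fun j => e j * ((m₁ * d₀ : ℕ) : ℤ)) a := by
        rw [← div_eq_mul_inv]
        exact mul_div_mul_right _ _ (right_ne_zero_of_mul h3.1)
      rwa [h5] at h4
    rw [← hAR] at h1
    exact h1
  · intro h O hO hu
    obtain ⟨a, ha⟩ := hI
    have hle := (hun O hO).1 hu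
    have h1 := h a ha
    have h2 : f / nuC (X.toDt t y0 dd (δ₀ ^ (m * (m₁ * d₀))) (m * (m₁ * d₀))
        fun j => e j * ((m₁ * d₀ : ℕ) : ℤ)) a ∈ O := by
      refine X.AR_le hle ?_
      rw [← hAR]
      exact h1
    have h3 := hnu a O hO (hle a ha)
    rw [hE]
    have h4 := O.mul_mem h2 h3.2.1
    have e1 := left_ne_zero_of_mul h3.1
    rwa [div_mul_eq_mul_div, mul_div_assoc, mul_div_cancel_left₀ _ e1] at h4

end Pool.Agent.KM
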