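import Pool.Agent.Lib.MP_732f67_ag.G.Nbh
import Pool.Agent.Lib.MP_732f67_ag.G.AtEx
import Pool.Agent.Lib.MP_732f67_ag.N.CarA

/-!
# Project KM, part V2: good neighbourhoods of the points of a smooth variety with normal crossings
-/

set_option autoImplicit false

namespace Pool.Agent.KM

open scoped KaehlerDifferential

variable {F : Type} [Field F] [Algebra ℂ F] {d : ℕ} {J : Type}

/-- `A` is a good chart of `Y` -/
structure Nx (d : ℕ) (Y : Set (Subalgebra ℂ F)) (B : J → Subalgebra ℂ F → Fˣ)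
    (Δ : Fin d → Derivation ℂ F F) (κ D : Subalgebra ℂ F → Fˣ)
    (N : Subalgebra ℂ F → Finset F) (A : Subalgebra ℂ F) (x : Fin d → F) (y u : F)
    (co : J → Option (Fin d)) (δ : F) : Prop where
  ch : IsCh A x y u
  eqn : ∀ j, ∀ Q ∈ Y, A ≤ Q → Un Q (B j Q / eps x (co j))
  inj : ∀ j j' l, co j = some l → co j' = some l → j = j'
  can : ∀ Q ∈ Y, A ≤ Q → Un Q (κ Q * nj Δ x)
  d_ne : δ ≠ 0
  d_eq : ∀ Q ∈ Y, A ≤ Q → Un Q (D Q / δ)
  fine : ∃ O ∈ Y, ∀ s ∈ N O, s ∈ A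

/-- Every point has a good basic open neighbourhood. -/
theorem exists_nx [Fintype J] {Y : Set (Subalgebra ℂ F)} {B : J → Subalgebra ℂ F → Fˣ}
    {Δ : Fin d → Derivation ℂ F F} {κ D : Subalgebra ℂ F → Fˣ}
    {N : Subalgebra ℂ F → Finset F} (hY : Snc d Y B Δ κ) (hD : IsCar Y D) (hN : Nbd Y N)
    {V : Submodule ℂ F} (hV : Module.Finite ℂ V) (hYV : Y = Pts V) {O : Subalgebra ℂ F}
    (hO : O ∈ Y) :
    ∃ (e : ℕ) (g : F), 1 ≤ e ∧ g ∈ V ^ e ∧ g ≠ 0 ∧ cht (V ^ e) g ≤ O ∧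
      ∃ (x : Fin d → F) (y u : F) (co : J → Option (Fin d)) (δ : F),
        Nx d Y B Δ κ D N (cht (V ^ e) g) x y u co δ := by
  classical
  have hO' : O ∈ Pts V := hYV ▸ hO
  -- the first neighbourhood
  obtain ⟨v, A0, hv, hv0, hA0, hBn0, hloc0⟩ := exists_bn hO'
  have hA0fg : A0.FG := hA0 ▸ cht_fg hV v
  have hfr0 : FracEq A0 := nb_frac hloc0 (hY.proj.fracEq hO)
  obtain ⟨x, co, ⟨bb, hb⟩, hinj, hco1, hκ⟩ := hY.snc O hO
  obtain ⟨h, hh, hh0, hhO, y, u, hch⟩ := exists_isCh hA0fg hfr0 hloc0 (hY.smooth O hO) x bb hb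
  have hBn1 := hBn0.away hh hh0 hhO
  set A1 : Subalgebra ℂ F := Algebra.adjoin ℂ ((A0 : Set F) ∪ {h⁻¹}) with hA1
  set xx : Fin d → F := fun i => (x i : F) with hxx
  choose S hS1 hS2 using fun j => hY.car j O hO
  obtain ⟨SD, hSD1, hSD2⟩ := hD O hO
  obtain ⟨Sκ, hSκ1, hSκ2⟩ := hY.kcar O hO
  set T : Finset F := (Finset.univ.biUnion S) ∪
    ((Finset.univ.image fun j => (B j O : F) / eps xx (co j)) ∪
    ((Finset.univ.image fun j => ((B j O : F) / eps xx (co j))⁻¹) ∪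
    (SD ∪ (Sκ ∪ (N O ∪ {(κ O : F) * nj Δ xx, ((κ O : F) * nj Δ xx)⁻¹}))))) with hT
  have hT1 : ∀ t ∈ T, t ∈ O := by
    intro t ht
    simp only [hT, Finset.mem_union, Finset.mem_biUnion, Finset.mem_image, Finset.mem_univ,
      true_and, Finset.mem_insert, Finset.mem_singleton] at ht
    rcases ht with ⟨j, hj⟩ | ⟨j, rfl⟩ | ⟨j, rfl⟩ | h1 | h1 | h1 | rfl | rfl
    · exact hS1 j t hj
    · exact (hco1 j).2.1
    · exact (hco1 j).2.2
    · exact hSD1 t h1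
    · exact hSκ1 t h1
    · exact hN O hO t h1
    · exact hκ.2.1
    · exact hκ.2.2
  obtain ⟨q, hq1, hq0, hqO, hqT⟩ := hBn1.shrink hO' T hT1
  have hBn2 := hBn1.away hq1 hq0 hqO
  obtain ⟨u', hch'⟩ := hch.away hq1 hq0
  set A : Subalgebra ℂ F := Algebra.adjoin ℂ ((A1 : Set F) ∪ {q⁻¹}) with hA
  obtain ⟨e, g, he, hg, hg0, hAg, hAO⟩ := hBn2
  have hm1 : ∀ j, ∀ t ∈ S j, t ∈ A := fun j t ht => hqT t (by
    simp only [hT, Finset.mem_union, Finset.mem_biUnion, Finset.mem_univ, true_and]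
    exact Or.inl ⟨j, ht⟩)
  have hm2 : ∀ j, (B j O : F) / eps xx (co j) ∈ A := fun j => hqT _ (by
    simp only [hT, Finset.mem_union, Finset.mem_image, Finset.mem_univ, true_and]
    exact Or.inr (Or.inl ⟨j, rfl⟩))
  have hm3 : ∀ j, ((B j O : F) / eps xx (co j))⁻¹ ∈ A := fun j => hqT _ (by
    simp only [hT, Finset.mem_union, Finset.mem_image, Finset.mem_univ, true_and]
    exact Or.inr (Or.inr (Or.inl ⟨j, rfl⟩)))
  have hm4 : ∀ t ∈ SD, t ∈ A := fun t ht => hqT t (by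
    simp only [hT, Finset.mem_union]
    exact Or.inr (Or.inr (Or.inr (Or.inl ht))))
  have hm5 : ∀ t ∈ Sκ, t ∈ A := fun t ht => hqT t (by
    simp only [hT, Finset.mem_union]
    exact Or.inr (Or.inr (Or.inr (Or.inr (Or.inl ht)))))
  have hm6 : ∀ t ∈ N O, t ∈ A := fun t ht => hqT t (by
    simp only [hT, Finset.mem_union]
    exact Or.inr (Or.inr (Or.inr (Or.inr (Or.inr (Or.inl ht))))))
  have hm7 : (κ O : F) * nj Δ xx ∈ A := hqT _ (by
    simp only [hT, Finset.mem_union, Finset.mem_insert, Finset.mem_singleton, true_or, or_true])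
  have hm8 : ((κ O : F) * nj Δ xx)⁻¹ ∈ A := hqT _ (by
    simp only [hT, Finset.mem_union, Finset.mem_insert, Finset.mem_singleton, or_true])
  refine ⟨e, g, he, hg, hg0, hAg ▸ hAO, xx, y, u', co, (D O : F), ?_⟩
  rw [← hAg]
  refine ⟨hch', ?_, hinj, ?_, Units.ne_zero _, ?_, ⟨O, hO, hm6⟩⟩
  · intro j Q hQ hAQ
    have h1 : Un Q ((B j O : F) / eps xx (co j)) := ⟨(hco1 j).1, hAQ (hm2 j), hAQ (hm3 j)⟩
    have h2 := hS2 j Q hQ fun t ht => hAQ (hm1 j t ht)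
    rw [Units.val_div_eq_div_val] at h2
    have h3 := h1.div h2
    have h4 : (B j O : F) / eps xx (co j) / ((B j O : F) / (B j Q : F)) =
        (B j Q : F) / eps xx (co j) := by
      have h5 : (B j O : F) ≠ 0 := Units.ne_zero _
      have h6 : (B j Q : F) ≠ 0 := Units.ne_zero _
      have h7 : eps xx (co j) ≠ 0 := by
        intro h8
        have := (hco1 j).1
        rw [h8, div_zero] at this
        exact this rfl
      field_simp
    rwa [h4] at h3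
  · intro Q hQ hAQ
    have h1 : Un Q ((κ O : F) * nj Δ xx) := ⟨hκ.1, hAQ hm7, hAQ hm8⟩
    have h2 := hSκ2 Q hQ fun t ht => hAQ (hm5 t ht)
    rw [Units.val_div_eq_div_val] at h2
    have h3 := h1.div h2
    have h4 : (κ O : F) * nj Δ xx / ((κ O : F) / (κ Q : F)) = (κ Q : F) * nj Δ xx := by
      have h5 : (κ O : F) ≠ 0 := Units.ne_zero _
      have h6 : (κ Q : F) ≠ 0 := Units.ne_zero _
      field_simp
    rwa [h4] at h3
  · intro Q hQ hAQ
    have h2 := hSD2 Q hQ fun t ht => hAQ (hm4 t ht)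
    have h3 := h2.inv
    rwa [Units.val_div_eq_div_val, inv_div] at h3

end Pool.Agent.KM
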