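import Pool.Agent.Lib.MP_732f67_ag.KV.ExA
import Pool.Agent.Lib.MP_732f67_ag.KV.AtC

/-!
# Project KM, part V2: finitely many good charts, the points of their intersections
-/

set_option autoImplicit false

namespace Pool.Agent.KM

open Pool.Agent.Lib.MP_732f67_ag.V (AR)

variable {F : Type} [Field F] [Algebra ℂ F] {d : ℕ} {J : Type}

/-- finitely many good charts; `z` is a very ample system of sections of the divisor `DD` -/
structure Px (d : ℕ) (Y : Set (Subalgebra ℂ F)) (B : J → Subalgebra ℂ F → Fˣ)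
    (Δ : Fin d → Derivation ℂ F F) (κ D : Subalgebra ℂ F → Fˣ)
    (N : Subalgebra ℂ F → Finset F) (DD : Subalgebra ℂ F → Fˣ) where
  M : ℕ
  k : ℕ
  z : Fin M → F
  σ : Fin k → Fin M
  x : Fin k → Fin d → F
  y : Fin k → F
  u : Fin k → F
  co : Fin k → J → Option (Fin d)
  δ : Fin k → F
  z_ne : ∀ j, z j ≠ 0
  cov : ∃ M : ℕ, ∀ j, z j ^ (M + 1) ∈
    Submodule.span ℂ (Set.range fun a => z (σ a)) * (Submodule.span ℂ (Set.range z)) ^ M
  va : VA Y DD (Submodule.span ℂ (Set.range z))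
  nx : ∀ a, Nx d Y B Δ κ D N (chA z (σ a)) (x a) (y a) (u a) (co a) (δ a)

theorem exists_px [Fintype J] {Y : Set (Subalgebra ℂ F)} {B : J → Subalgebra ℂ F → Fˣ}
    {Δ : Fin d → Derivation ℂ F F} {κ D : Subalgebra ℂ F → Fˣ}
    {N : Subalgebra ℂ F → Finset F} (hY : Snc d Y B Δ κ) (hD : IsCar Y D) (hN : Nbd Y N)
    {V : Submodule ℂ F} {DD : Subalgebra ℂ F → Fˣ} (hV : VA Y DD V) :
    ∃ e : ℕ, 1 ≤ e ∧ Nonempty (Px d Y B Δ κ D N (DD ^ e)) := by
  classical
  have hVf := hV.fin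
  have hspan : Submodule.span ℂ (Set.range fun i => ((Module.finBasis ℂ V i : V) : F)) = V := by
    have h1 := congrArg (Submodule.map V.subtype) (Module.finBasis ℂ V).span_eq
    rw [Submodule.map_span, ← Set.range_comp, Submodule.map_subtype_top] at h1
    exact h1
  have hz : ∀ i, ((Module.finBasis ℂ V i : V) : F) ≠ 0 := fun i h0 =>
    (Module.finBasis ℂ V).ne_zero i (Subtype.ext h0)
  rcases Nat.eq_zero_or_pos (Module.finrank ℂ V) with hN0 | hN0
  · exfalso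
    obtain ⟨O, hO⟩ := hY.proj.nonempty
    have hV0 : V = ⊥ := Submodule.finrank_eq_zero.1 hN0
    rw [hV.eq] at hO
    obtain ⟨v, hv, hv0, -⟩ := hO
    rw [hV0, Submodule.mem_bot] at hv
    exact hv0 hv
  obtain ⟨e₀, N', K, z, σ, hd, hz0, hs, hM, hP⟩ := exists_cover (k := ℂ) hN0
    (fun i => ((Module.finBasis ℂ V i : V) : F)) hz
    (fun e g => ∃ (x : Fin d → F) (y u : F) (co : J → Option (Fin d)) (δ : F),
      Nx d Y B Δ κ D N (cht (V ^ e) g) x y u co δ) (by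
      rw [hspan]
      intro O hO
      exact exists_nx hY hD hN hV.fin hV.eq (by
        rw [hV.eq]
        exact hO))
  rw [hspan] at hs hP
  have hnb : ∀ a, ∃ (x : Fin d → F) (y u : F) (co : J → Option (Fin d)) (δ : F),
      Nx d Y B Δ κ D N (chA z (σ a)) x y u co δ := by
    intro a
    obtain ⟨e, r', g, hr, he, hder, hzg, hg, hnb⟩ := hP a
    have hg0 : g ≠ 0 := by
      rintro rfl
      rw [zero_pow (by omega)] at hzg
      exact hz0 _ hzg
    have h1 : chA z (σ a) = cht (V ^ e) g := by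
      rw [← cht_pow hr hg hg0, ← hder, ← hzg, ← hs, cht_span]
      rfl
    rw [h1]
    exact hnb
  choose x y u co δ hnb using hnb
  exact ⟨e₀, hd, ⟨{
      M := N'
      k := K
      z := z
      σ := σ
      x := x
      y := y
      u := u
      co := co
      δ := δ
      z_ne := hz0
      cov := hM
      va := by
        rw [hs]
        exact VA.pow hY.proj hV hd
      nx := hnb }⟩⟩

namespace Px

variable {Y : Set (Subalgebra ℂ F)} {B : J → Subalgebra ℂ F → Fˣ}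
  {Δ : Fin d → Derivation ℂ F F} {κ D : Subalgebra ℂ F → Fˣ}
  {N : Subalgebra ℂ F → Finset F} {DD : Subalgebra ℂ F → Fˣ} (X : Px d Y B Δ κ D N DD)

/-- the ring of the chart -/
def A (a : Fin X.k) : Subalgebra ℂ F := chA X.z (X.σ a)

theorem A_eq (a : Fin X.k) :
    X.A a = cht (Submodule.span ℂ (Set.range X.z)) (X.z (X.σ a)) := (cht_span _ _).symm

theorem z_mem (j : Fin X.M) : X.z j ∈ Submodule.span ℂ (Set.range X.z) :=
  Submodule.subset_span ⟨j, rfl⟩

/-- the local rings of a chart are points of `Y`, and conversely -/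
theorem locAt_iff (a : Fin X.k) (Q : Subalgebra ℂ F) :
    LocAt (X.A a) Q ↔ Q ∈ Y ∧ X.A a ≤ Q := by
  have hV := X.va.eq
  constructor
  · intro h
    refine ⟨?_, h.le⟩
    rw [hV]
    rw [A_eq] at h
    exact ⟨_, X.z_mem _, X.z_ne _, h⟩
  · rintro ⟨h1, h2⟩
    rw [hV] at h1
    rw [A_eq] at h2 ⊢
    exact Pts.locAt h1 (X.z_mem _) (X.z_ne _) h2

/-- the points of a chart are the points where `z (σ a)` is a generator -/
theorem un_iff (a : Fin X.k) {Q : Subalgebra ℂ F} (hQ : Q ∈ Y) :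
    Un Q (X.z (X.σ a) * DD Q) ↔ X.A a ≤ Q := by
  rw [A_eq]
  exact ⟨fun h => X.va.toBF.cht_le hQ (X.z_mem _) h,
    fun h => X.va.toBF.un_of_cht_le hQ (X.z_mem _) (X.z_ne _) h⟩

/-- every point is on a chart -/
theorem exists_le {Q : Subalgebra ℂ F} (hQ : Q ∈ Y) : ∃ a, X.A a ≤ Q := by
  have hQ' := hQ
  rw [X.va.eq] at hQ'
  obtain ⟨a, -, h⟩ := va3_cover rfl X.cov hQ'
  exact ⟨a, by rw [A_eq]; exact h⟩

theorem A_le {I : Finset (Fin X.k)} {a : Fin X.k} (ha : a ∈ I) : X.A a ≤ AR ℂ X.z X.σ I := by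
  refine Algebra.adjoin_mono ?_
  rintro _ ⟨i, rfl⟩
  exact ⟨i, a, ha, rfl⟩

/-- the ring of the intersection of charts is contained in the points of the intersection -/
theorem AR_le {I : Finset (Fin X.k)} {Q : Subalgebra ℂ F} (h : ∀ a ∈ I, X.A a ≤ Q) :
    AR ℂ X.z X.σ I ≤ Q := by
  refine Algebra.adjoin_le ?_
  rintro _ ⟨i, a, ha, rfl⟩
  exact h a ha (Algebra.subset_adjoin ⟨i, rfl⟩)

/-- an element of all the points of the intersection of charts belongs to the ring of the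
intersection -/
theorem mem_AR (hY : IsProj Y) {I : Finset (Fin X.k)} (hI : I.Nonempty) {w : F}
    (h : ∀ Q ∈ Y, (∀ a ∈ I, X.A a ≤ Q) → w ∈ Q) : w ∈ AR ℂ X.z X.σ I := by
  refine mem_of_locAt fun P hP => ?_
  have hl := hP.isLocalRing
  have hle : ∀ a ∈ I, X.A a ≤ P := fun a ha => (X.A_le ha).trans hP.le
  obtain ⟨a₀, ha₀⟩ := hI
  have h0 := hle a₀ ha₀
  obtain ⟨h1, h2⟩ := (X.locAt_iff a₀ _).1 (locAt_locOf h0 hl)
  refine (dom_locOf h0).1 (h _ h1 fun a ha => ?_)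
  obtain ⟨h1', h2'⟩ := (X.locAt_iff a _).1 (locAt_locOf (hle a ha) hl)
  have h3 := hY.eq_of_dom h1 h1' (dom_locOf h0) (dom_locOf (hle a ha))
  rw [h3]
  exact h2'

theorem mem_A (a : Fin X.k) {w : F} (h : ∀ Q ∈ Y, X.A a ≤ Q → w ∈ Q) : w ∈ X.A a := by
  refine mem_of_locAt fun P hP => ?_
  obtain ⟨h1, h2⟩ := (X.locAt_iff a _).1 hP
  exact h _ h1 h2

theorem mem_sup (hY : IsProj Y) (a b : Fin X.k) {w : F}
    (h : ∀ Q ∈ Y, X.A a ≤ Q → X.A b ≤ Q → w ∈ Q) : w ∈ X.A a ⊔ X.A b := by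
  refine mem_of_locAt fun P hP => ?_
  have hl := hP.isLocalRing
  have ha : X.A a ≤ P := le_sup_left.trans hP.le
  have hb : X.A b ≤ P := le_sup_right.trans hP.le
  obtain ⟨h1, h2⟩ := (X.locAt_iff a _).1 (locAt_locOf ha hl)
  obtain ⟨h1', h2'⟩ := (X.locAt_iff b _).1 (locAt_locOf hb hl)
  have h3 := hY.eq_of_dom h1 h1' (dom_locOf ha) (dom_locOf hb)
  refine (dom_locOf ha).1 (h _ h1 h2 ?_)
  rw [h3]
  exact h2'

theorem exists_pt (a : Fin X.k) : ∃ Q ∈ Y, X.A a ≤ Q := by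
  have h : IsLocalRing (⊤ : Subalgebra ℂ F) :=
    IsLocalRing.of_surjective' (Subalgebra.topEquiv (R := ℂ) (A := F)).symm.toRingHom
      (Subalgebra.topEquiv (R := ℂ) (A := F)).symm.surjective
  obtain ⟨h1, h2⟩ := (X.locAt_iff a _).1 (locAt_locOf (le_top : X.A a ≤ ⊤) h)
  exact ⟨_, h1, h2⟩

/-- an element which is a unit at all points of a chart is a unit of its ring -/
theorem un_of_pt (a : Fin X.k) {w : F} (h : ∀ Q ∈ Y, X.A a ≤ Q → Un Q w) : Un (X.A a) w := by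
  obtain ⟨Q, hQ, hQ'⟩ := X.exists_pt a
  exact ⟨(h Q hQ hQ').1, X.mem_A a fun Q hQ hQ' => (h Q hQ hQ').2.1,
    X.mem_A a fun Q hQ hQ' => (h Q hQ hQ').2.2⟩

end Px

end Pool.Agent.KM
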